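import Pool.Agent.H331R3.HCInv

/-! Clique minors in categorical products. -/

set_option autoImplicit false

namespace H331HC

open Finset

/-- The categorical (direct, tensor) product of two graphs. -/
def catProd {A V : Type*} (F : SimpleGraph A) (G : SimpleGraph V) : SimpleGraph (A × V) where
  Adj p q := F.Adj p.1 q.1 ∧ G.Adj p.2 q.2
  symm := ⟨fun _ _ h => ⟨h.1.symm, h.2.symm⟩⟩
  loopless := ⟨fun _ h => F.irrefl h.1⟩

variable {A V : Type*}

lemma even_walk (G : SimpleGraph V) (c0 : V) (w0 : G.Walk c0 c0) (hw0 : Odd w0.length)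
    (c e : V) (hc : G.Reachable c0 c) (he : G.Reachable c0 e) :
    ∃ w : G.Walk c e, Even w.length := by
  obtain ⟨p⟩ := hc
  obtain ⟨q⟩ := he
  by_cases h : Even (p.reverse.append q).length
  · exact ⟨_, h⟩
  · refine ⟨p.reverse.append (w0.append q), ?_⟩
    rw [SimpleGraph.Walk.length_append] at h ⊢
    rw [SimpleGraph.Walk.length_append]
    rw [Nat.even_iff] at h ⊢
    rw [Nat.odd_iff] at hw0
    omega

lemma exists_nbr (G : SimpleGraph V) (c0 : V) (w0 : G.Walk c0 c0) (hw0 : Odd w0.length)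
    (d : V) (hd : G.Reachable c0 d) : ∃ c, G.Adj d c ∧ G.Reachable c0 c := by
  obtain ⟨p⟩ := hd
  have hlen : 0 < (p.reverse.append w0).length := by
    rw [SimpleGraph.Walk.length_append]
    have := hw0.pos
    omega
  cases h : p.reverse.append w0 with
  | nil => rw [h] at hlen; simp at hlen
  | cons hadj q => exact ⟨_, hadj, (SimpleGraph.Walk.reachable q).symm⟩

/-- even walks in the second coordinate -/
lemma even_move (F : SimpleGraph A) (G : SimpleGraph V) (B : Set A) (C : Set V)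
    (hC : ∀ c ∈ C, ∀ d, G.Adj c d → d ∈ C)
    {u u' : A} (hu : u ∈ B) (hu' : u' ∈ B) (huu : F.Adj u u') :
    ∀ (n : ℕ) (c e : V) (w : G.Walk c e), w.length = 2 * n → ∀ (hc : c ∈ C) (he : e ∈ C),
      ((catProd F G).induce {p | p.1 ∈ B ∧ p.2 ∈ C}).Reachable ⟨(u, c), hu, hc⟩ ⟨(u, e), hu, he⟩ := by
  intro n
  induction n with
  | zero =>
    intro c e w hw hc he
    cases w with
    | nil => exact SimpleGraph.Reachable.refl _
    | cons h q => simp at hw
  | succ n ih =>
    intro c e w hw hc he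
    cases w with
    | nil => simp at hw
    | @cons _ d _ h q =>
      cases q with
      | nil => simp at hw; omega
      | @cons _ d' _ h' q' =>
        have hd : d ∈ C := hC c hc d h
        have hd' : d' ∈ C := hC d hd d' h'
        have h1 : ((catProd F G).induce {p | p.1 ∈ B ∧ p.2 ∈ C}).Adj
            ⟨(u, c), hu, hc⟩ ⟨(u', d), hu', hd⟩ := ⟨huu, h⟩
        have h2 : ((catProd F G).induce {p | p.1 ∈ B ∧ p.2 ∈ C}).Adj
            ⟨(u', d), hu', hd⟩ ⟨(u, d'), hu, hd'⟩ := ⟨huu.symm, h'⟩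
        refine h1.reachable.trans (h2.reachable.trans (ih d' e q' ?_ hd' he))
        simp only [SimpleGraph.Walk.length_cons] at hw
        omega

lemma block_connected (F : SimpleGraph A) (G : SimpleGraph V) (B : Set A)
    (hB : (F.induce B).Connected) (hBn : ∀ u ∈ B, ∃ u' ∈ B, F.Adj u u')
    (c0 : V) (w0 : G.Walk c0 c0) (hw0 : Odd w0.length) :
    ((catProd F G).induce {p | p.1 ∈ B ∧ p.2 ∈ {c | G.Reachable c0 c}}).Connected := by
  set C : Set V := {c | G.Reachable c0 c} with hCdef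
  have hC : ∀ c ∈ C, ∀ d, G.Adj c d → d ∈ C := fun c hc d h => hc.trans h.reachable
  have hc0 : c0 ∈ C := SimpleGraph.Reachable.refl _
  obtain ⟨⟨u0, hu0⟩⟩ := hB.nonempty
  rw [SimpleGraph.connected_iff_exists_forall_reachable]
  refine ⟨⟨(u0, c0), hu0, hc0⟩, ?_⟩
  have key : ∀ (a b : B) (w : (F.induce B).Walk a b),
      (∀ c (hc : c ∈ C), ((catProd F G).induce {p | p.1 ∈ B ∧ p.2 ∈ C}).Reachable
        ⟨(u0, c0), hu0, hc0⟩ ⟨(a.1, c), a.2, hc⟩) →
      (∀ c (hc : c ∈ C), ((catProd F G).induce {p | p.1 ∈ B ∧ p.2 ∈ C}).Reachable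
        ⟨(u0, c0), hu0, hc0⟩ ⟨(b.1, c), b.2, hc⟩) := by
    intro a b w
    induction w with
    | nil => exact fun h => h
    | @cons x y z hxy q ih =>
      intro h
      apply ih
      intro c hc
      obtain ⟨d, hd1, hd2⟩ := exists_nbr G c0 w0 hw0 c hc
      refine (h d hd2).trans ?_
      have h1 : ((catProd F G).induce {p | p.1 ∈ B ∧ p.2 ∈ C}).Adj
            ⟨(x.1, d), x.2, hd2⟩ ⟨(y.1, c), y.2, hc⟩ := ⟨hxy, hd1.symm⟩
      exact h1.reachable
  have base : ∀ c (hc : c ∈ C), ((catProd F G).induce {p | p.1 ∈ B ∧ p.2 ∈ C}).Reachable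
        ⟨(u0, c0), hu0, hc0⟩ ⟨(u0, c), hu0, hc⟩ := by
    intro c hc
    obtain ⟨u', hu', huu⟩ := hBn u0 hu0
    obtain ⟨w, hw⟩ := even_walk G c0 w0 hw0 c0 c hc0 hc
    obtain ⟨n, hn⟩ := hw
    exact even_move F G B C hC hu0 hu' huu n c0 c w (by omega) hc0 hc
  rintro ⟨⟨u, c⟩, hu, hc⟩
  obtain ⟨w⟩ := hB.preconnected ⟨u0, hu0⟩ ⟨u, hu⟩
  exact key _ _ w base c hc

/-- Categorical products inherit clique minors from a factor if the other is not bipartite. -/
theorem cat_main (F : SimpleGraph A) (G : SimpleGraph V) (h : ℕ) (hF : KMinor F h)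
    (hG : ¬ G.Colorable 2) : KMinor (catProd F G) h := by
  classical
  rw [SimpleGraph.two_colorable_iff_forall_loop_even] at hG
  push Not at hG
  obtain ⟨c0, w0, hw0⟩ := hG
  rw [Nat.not_even_iff_odd] at hw0
  obtain ⟨d0, hd0, hd0r⟩ := exists_nbr G c0 w0 hw0 c0 (SimpleGraph.Reachable.refl _)
  set C : Set V := {c | G.Reachable c0 c} with hCdef
  obtain ⟨B, hB1, hB2, hB3⟩ := hF
  have hcC : c0 ∈ C := SimpleGraph.Reachable.refl _
  have hdC : d0 ∈ C := hd0r
  have hne : ∀ a, (B a).Nonempty := by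
    intro a
    obtain ⟨⟨x, hx⟩⟩ := (hB1 a).nonempty
    exact ⟨x, hx⟩
  -- nontrivial branch sets
  let N : Fin h → Prop := fun a => (B a).Nontrivial
  have hN : ∀ a, N a → ((catProd F G).induce {p | p.1 ∈ B a ∧ p.2 ∈ C}).Connected := by
    intro a ha
    refine block_connected F G (B a) (hB1 a) ?_ c0 w0 hw0
    intro u hu
    obtain ⟨v, hv, hvu⟩ := ha.exists_ne u
    obtain ⟨w⟩ := (hB1 a).preconnected ⟨u, hu⟩ ⟨v, hv⟩
    cases w with
    | nil => exact absurd rfl hvu
    | @cons _ y _ h q => exact ⟨y.1, y.2, h⟩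
  have hS : ∀ a, ¬ N a → ∃ b, B a = {b} := by
    intro a ha
    obtain ⟨b, hb⟩ := hne a
    refine ⟨b, ?_⟩
    rw [Set.not_nontrivial_iff] at ha
    exact ha.eq_singleton_of_mem hb
  -- index of the singletons
  let S := {a : Fin h // ¬ N a}
  choose b hb using fun a : S => hS a.1 a.2
  have hbadj : ∀ a a' : S, a ≠ a' → F.Adj (b a) (b a') := by
    intro a a' haa
    obtain ⟨u, hu, v, hv, huv⟩ := hB3 a.1 a'.1 (fun h => haa (Subtype.ext h))
    rw [hb a, Set.mem_singleton_iff] at hu
    rw [hb a', Set.mem_singleton_iff] at hv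
    rwa [hu, hv] at huv
  have hbinj : ∀ a a' : S, b a = b a' → a = a' := by
    intro a a' h
    by_contra hne
    have := hbadj a a' hne
    rw [h] at this
    exact F.irrefl this
  -- a family of sets over the singletons
  have main : ∃ Q : S → Set (A × V), (∀ i, ((catProd F G).induce (Q i)).Connected) ∧
      (∀ i j, i ≠ j → Disjoint (Q i) (Q j)) ∧
      (∀ i j, i ≠ j → ∃ u ∈ Q i, ∃ v ∈ Q j, (catProd F G).Adj u v) ∧
      (∀ i, ∀ p ∈ Q i, (∃ s, p.1 = b s)) ∧
      (∀ i, ∃ c ∈ C, (b i, c) ∈ Q i) := by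
    set p := Fintype.card S with hp
    let e : S ≃ Fin p := Fintype.equivFin S
    by_cases hp3 : 3 ≤ p
    · have : NeZero p := ⟨by omega⟩
      have hs1 : ∀ a : Fin p, a + 1 ≠ a := by
        intro a ha
        have h1 : (1 : Fin p) = 0 := by simpa using ha
        have h3 : ((1 : Fin p) : ℕ) = 0 := by rw [h1]; simp
        rw [Fin.val_one', Nat.mod_eq_of_lt (by omega)] at h3
        exact one_ne_zero h3
      have hs2 : ∀ a : Fin p, a + 1 + 1 ≠ a := by
        intro a ha
        have h1 : (1 + 1 : Fin p) = 0 := by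
          have : a + (1 + 1) = a + 0 := by rw [← add_assoc, ha, add_zero]
          exact add_left_cancel this
        have h3 : ((1 + 1 : Fin p) : ℕ) = 0 := by rw [h1]; simp
        rw [Fin.val_add, Fin.val_one', Nat.mod_eq_of_lt (by omega : 1 < p),
          Nat.mod_eq_of_lt (by omega)] at h3
        omega
      let σ : S → S := fun i => e.symm (e i + 1)
      have hσ1 : ∀ i, σ i ≠ i := by
        intro i h
        have := congrArg e h
        simp only [σ, Equiv.apply_symm_apply] at this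
        exact hs1 _ this
      have hσ2 : ∀ i, σ (σ i) ≠ i := by
        intro i h
        have := congrArg e h
        simp only [σ, Equiv.apply_symm_apply] at this
        exact hs2 _ this
      have hσi : ∀ i j, σ i = σ j → i = j := by
        intro i j h
        have := congrArg e h
        simp only [σ, Equiv.apply_symm_apply] at this
        exact e.injective (by simpa using this)
      refine ⟨fun i => {(b i, c0), (b (σ i), d0)}, ?_, ?_, ?_, ?_, ?_⟩
      · intro i
        exact connected_pair _ (⟨hbadj _ _ (hσ1 i).symm, hd0⟩ : (catProd F G).Adj _ _)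
      · intro i j hij
        rw [Set.disjoint_left]
        rintro x hx hx'
        simp only [Set.mem_insert_iff, Set.mem_singleton_iff] at hx hx'
        rcases hx with rfl | rfl <;> rcases hx' with h | h
        · exact hij (hbinj _ _ (congrArg Prod.fst h))
        · exact hd0.ne (congrArg Prod.snd h)
        · exact hd0.ne (congrArg Prod.snd h).symm
        · exact hij (hσi _ _ (hbinj _ _ (congrArg Prod.fst h)))
      · intro i j hij
        by_cases h1 : i = σ j
        · refine ⟨(b (σ i), d0), by simp, (b j, c0), by simp, hbadj _ _ ?_, hd0.symm⟩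
          rw [h1]; exact hσ2 j
        · exact ⟨(b i, c0), by simp, (b (σ j), d0), by simp, hbadj _ _ h1, hd0⟩
      · intro i x hx
        simp only [Set.mem_insert_iff, Set.mem_singleton_iff] at hx
        rcases hx with rfl | rfl
        · exact ⟨i, rfl⟩
        · exact ⟨σ i, rfl⟩
      · intro i
        exact ⟨c0, hcC, by simp⟩
    · -- at most two singletons
      have hmem : ∀ i : S, (if (e i : ℕ) = 0 then c0 else d0) ∈ C := by
        intro i; split_ifs
        · exact hcC
        · exact hdC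
      refine ⟨fun i => {(b i, if (e i : ℕ) = 0 then c0 else d0)}, ?_, ?_, ?_, ?_, ?_⟩
      · intro i; exact connected_single _ _
      · intro i j hij
        rw [Set.disjoint_singleton]
        intro h
        exact hij (hbinj _ _ (congrArg Prod.fst h))
      · intro i j hij
        refine ⟨_, rfl, _, rfl, hbadj _ _ hij, ?_⟩
        have h1 : (e i : ℕ) ≠ (e j : ℕ) := fun h => hij (e.injective (Fin.ext h))
        have h2 := (e i).2
        have h3 := (e j).2
        by_cases h4 : (e i : ℕ) = 0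
        · have h5 : (e j : ℕ) ≠ 0 := fun h => h1 (by rw [h4, h])
          simp only [h4, h5, if_true, if_false]
          exact hd0
        · have h5 : (e j : ℕ) = 0 := by omega
          simp only [h4, h5, if_true, if_false]
          exact hd0.symm
      · intro i x hx
        rw [Set.mem_singleton_iff] at hx
        exact ⟨i, by rw [hx]⟩
      · intro i
        exact ⟨_, hmem i, rfl⟩
  obtain ⟨Q, hQ1, hQ2, hQ3, hQ4, hQ5⟩ := main
  -- every branch set
  let P : Fin h → Set (A × V) := fun a =>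
    if ha : N a then {p | p.1 ∈ B a ∧ p.2 ∈ C} else Q ⟨a, ha⟩
  have hPN : ∀ a, N a → P a = {p | p.1 ∈ B a ∧ p.2 ∈ C} := by
    intro a ha; simp only [P, dif_pos ha]
  have hPS : ∀ a (ha : ¬ N a), P a = Q ⟨a, ha⟩ := by
    intro a ha; simp only [P, dif_neg ha]
  have hQB : ∀ (a : Fin h) (i : S), N a → ∀ x ∈ Q i, x.1 ∉ B a := by
    intro a i ha x hx hxa
    obtain ⟨s, hs⟩ := hQ4 i x hx
    have h1 : x.1 ∈ B s.1 := by rw [hb s, hs]; rfl
    have h2 : s.1 ≠ a := fun h => s.2 (h ▸ ha)
    exact Set.disjoint_left.1 (hB2 _ _ h2) h1 hxa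
  have hadjNS : ∀ (a : Fin h) (i : S), N a → ∃ u ∈ {p : A × V | p.1 ∈ B a ∧ p.2 ∈ C},
      ∃ v ∈ Q i, (catProd F G).Adj u v := by
    intro a i ha
    obtain ⟨c, hc, hci⟩ := hQ5 i
    obtain ⟨u, hu, v, hv, huv⟩ := hB3 a i.1 (fun h => i.2 (h ▸ ha))
    rw [hb i, Set.mem_singleton_iff] at hv
    obtain ⟨d, hd, hdr⟩ := exists_nbr G c0 w0 hw0 c hc
    exact ⟨(u, d), ⟨hu, hdr⟩, (b i, c), hci, by rw [← hv]; exact huv, hd.symm⟩
  refine ⟨P, ?_, ?_, ?_⟩
  · intro a
    by_cases ha : N a
    · rw [hPN a ha]; exact hN a ha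
    · rw [hPS a ha]; exact hQ1 _
  · intro a a' haa
    by_cases ha : N a <;> by_cases ha' : N a'
    · rw [hPN a ha, hPN a' ha', Set.disjoint_left]
      rintro x hx hx'
      exact Set.disjoint_left.1 (hB2 _ _ haa) hx.1 hx'.1
    · rw [hPN a ha, hPS a' ha', Set.disjoint_left]
      rintro x hx hx'
      exact hQB a _ ha x hx' hx.1
    · rw [hPS a ha, hPN a' ha', Set.disjoint_left]
      rintro x hx hx'
      exact hQB a' _ ha' x hx hx'.1
    · rw [hPS a ha, hPS a' ha']
      exact hQ2 _ _ (fun h => haa (congrArg Subtype.val h))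
  · intro a a' haa
    by_cases ha : N a <;> by_cases ha' : N a'
    · rw [hPN a ha, hPN a' ha']
      obtain ⟨u, hu, v, hv, huv⟩ := hB3 a a' haa
      exact ⟨(u, c0), ⟨hu, hcC⟩, (v, d0), ⟨hv, hdC⟩, huv, hd0⟩
    · rw [hPN a ha, hPS a' ha']
      exact hadjNS a _ ha
    · rw [hPS a ha, hPN a' ha']
      obtain ⟨u, hu, v, hv, huv⟩ := hadjNS a' ⟨a, ha⟩ ha'
      exact ⟨v, hv, u, hu, huv.symm⟩
    · rw [hPS a ha, hPS a' ha']
      exact hQ3 _ _ (fun h => haa (congrArg Subtype.val h))

end H331HC
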