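import Pool.Agent.H331R3.HCSparse

/-! Corollaries: few non-neighbours, many non-edges. -/

set_option autoImplicit false

namespace H331HC

open Finset

variable {V : Type*} [Fintype V]

/-- ball of radius two in a graph of maximum degree at most `D` -/
lemma ball_card [DecidableEq V] (G : SimpleGraph V) (D : ℕ)
    (hD : ∀ x, {y | Gᶜ.Adj x y}.ncard ≤ D) (x : V) :
    {y | Near G x y}.ncard ≤ D * D + 1 := by
  classical
  -- neighbours
  set N : V → Finset V := fun x => univ.filter (fun y => Gᶜ.Adj x y) with hN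
  have hNc : ∀ x, (N x).card ≤ D := by
    intro x
    have := hD x
    rwa [Set.ncard_eq_toFinset_card' {y | Gᶜ.Adj x y}, Set.toFinset_ofPred] at this
  have hsub : {y | Near G x y}.toFinset ⊆ insert x ((N x).biUnion (fun z => insert z ((N z).erase x))) := by
    intro y hy
    rw [Set.mem_toFinset] at hy
    rcases hy with h | h | ⟨z, h1, h2⟩
    · rw [h]; simp
    · rw [mem_insert]; right
      rw [mem_biUnion]
      exact ⟨y, by simpa [hN] using h, by simp⟩
    · rw [mem_insert]
      by_cases hyx : y = x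
      · left; exact hyx
      · right
        rw [mem_biUnion]
        exact ⟨z, by simpa [hN] using h1, by
          rw [mem_insert, mem_erase]; right
          exact ⟨hyx, by simpa [hN] using h2⟩⟩
  rw [Set.ncard_eq_toFinset_card' {y | Near G x y}]
  refine (card_le_card hsub).trans ((card_insert_le _ _).trans ?_)
  refine Nat.add_le_add_right ?_ 1
  calc ((N x).biUnion (fun z => insert z ((N z).erase x))).card
      ≤ ∑ z ∈ N x, (insert z ((N z).erase x)).card := card_biUnion_le
    _ ≤ ∑ z ∈ N x, D := by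
        refine Finset.sum_le_sum (fun z hz => ?_)
        refine (card_insert_le _ _).trans ?_
        have hxz : x ∈ N z := by
          simp only [hN, mem_filter, mem_univ, true_and] at hz ⊢
          exact hz.symm
        rw [card_erase_of_mem hxz]
        have := hNc z
        have h0 : 0 < (N z).card := card_pos.2 ⟨x, hxz⟩
        omega
    _ = (N x).card * D := by rw [sum_const, smul_eq_mul]
    _ ≤ D * D := Nat.mul_le_mul_right _ (hNc x)

/-- A maximal matching of the complement, as an involution. -/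
lemma exists_maximal (G : SimpleGraph V) :
    ∃ g : V → V, (∀ x, g (g x) = x) ∧ (∀ x, ¬ G.Adj x (g x)) ∧
      (∀ x y, g x = x → g y = y → x ≠ y → G.Adj x y) := by
  classical
  obtain ⟨f, hf, hmax⟩ := exists_max_inv (fun x y => Gᶜ.Adj x y) (univ : Finset V)
  refine ⟨f, hf.1, ?_, ?_⟩
  · intro x h
    by_cases hx : f x = x
    · rw [hx] at h; exact G.irrefl h
    · exact ((SimpleGraph.compl_adj G _ _).1 (hf.2 x hx).1).2 h
  · intro x y hx hy hxy
    by_contra h
    exact aug_one (fun x y => Gᶜ.Adj x y) (fun _ _ h => h.symm) univ f hf hmax hx hy hxy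
      (mem_univ _) (mem_univ _) ((SimpleGraph.compl_adj G _ _).2 ⟨hxy, h⟩)

/-- The number of (ordered) non-adjacent pairs. -/
lemma edges_le (G : SimpleGraph V) (D : ℕ)
    (hD : ∀ x, {y | Gᶜ.Adj x y}.ncard ≤ D) (g : V → V)
    (hfix : ∀ x y, g x = x → g y = y → x ≠ y → G.Adj x y) :
    {p : V × V | Gᶜ.Adj p.1 p.2}.ncard ≤ 2 * (D * {y | g y ≠ y}.ncard) := by
  classical
  set W : Finset V := univ.filter (fun y => g y ≠ y) with hW
  have hWc : {y | g y ≠ y}.ncard = W.card := by
    rw [Set.ncard_eq_toFinset_card' {y | g y ≠ y}, Set.toFinset_ofPred]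
  set N : V → Finset V := fun x => univ.filter (fun y => Gᶜ.Adj x y) with hN
  have hNc : ∀ x, (N x).card ≤ D := by
    intro x
    have := hD x
    rwa [Set.ncard_eq_toFinset_card' {y | Gᶜ.Adj x y}, Set.toFinset_ofPred] at this
  set A : Finset (V × V) := W.biUnion (fun x => (N x).image (fun y => (x, y))) with hA
  set B : Finset (V × V) := W.biUnion (fun x => (N x).image (fun y => (y, x))) with hB
  have hAc : A.card ≤ D * W.card := by
    calc A.card ≤ ∑ x ∈ W, ((N x).image (fun y => (x, y))).card := card_biUnion_le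
      _ ≤ ∑ x ∈ W, D := sum_le_sum (fun x _ => card_image_le.trans (hNc x))
      _ = D * W.card := by rw [sum_const, smul_eq_mul, mul_comm]
  have hBc : B.card ≤ D * W.card := by
    calc B.card ≤ ∑ x ∈ W, ((N x).image (fun y => (y, x))).card := card_biUnion_le
      _ ≤ ∑ x ∈ W, D := sum_le_sum (fun x _ => card_image_le.trans (hNc x))
      _ = D * W.card := by rw [sum_const, smul_eq_mul, mul_comm]
  have hsub : {p : V × V | Gᶜ.Adj p.1 p.2}.toFinset ⊆ A ∪ B := by
    rintro ⟨x, y⟩ hp
    rw [Set.mem_toFinset] at hp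
    have hp' : Gᶜ.Adj x y := hp
    rw [mem_union]
    by_cases hx : g x = x
    · right
      have hy : g y ≠ y := fun hy => ((SimpleGraph.compl_adj G _ _).1 hp').2
        (hfix x y hx hy hp'.ne)
      rw [hB, mem_biUnion]
      exact ⟨y, by simp [hW, hy], mem_image.2 ⟨x, by simpa [hN] using hp'.symm, rfl⟩⟩
    · left
      rw [hA, mem_biUnion]
      exact ⟨x, by simp [hW, hx], mem_image.2 ⟨y, by simpa [hN] using hp', rfl⟩⟩
  rw [Set.ncard_eq_toFinset_card' {p : V × V | Gᶜ.Adj p.1 p.2}, hWc]
  have := (card_le_card hsub).trans (card_union_le _ _)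
  nlinarith

/-- Hadwiger's conjecture for graphs with more than `2 D ^ 3` non-edges, where every vertex has
at most `D` non-neighbours. -/
theorem sparse (G : SimpleGraph V) (D : ℕ)
    (hD : ∀ x, {y | Gᶜ.Adj x y}.ncard ≤ D)
    (hE : 4 * D ^ 3 < {p : V × V | Gᶜ.Adj p.1 p.2}.ncard) :
    ∃ k, G.Colorable k ∧ KMinor G k := by
  classical
  obtain ⟨g, hg, hadj, hfix⟩ := exists_maximal G
  have h1 := edges_le G D hD g hfix
  have hev := even_nonfixed g hg
  have hWc : {y | g y ≠ y}.ncard = (univ.filter (fun y => g y ≠ y)).card := by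
    rw [Set.ncard_eq_toFinset_card' {y | g y ≠ y}, Set.toFinset_ofPred]
  rw [← hWc] at hev
  have h2 : 2 * (D * D + 1) ≤ {y | g y ≠ y}.ncard := by
    by_contra hcon
    push Not at hcon
    have h3 : {y | g y ≠ y}.ncard ≤ 2 * (D * D) := by
      rw [Nat.even_iff] at hev
      omega
    have h4 : D * {y | g y ≠ y}.ncard ≤ D * (2 * (D * D)) := Nat.mul_le_mul_left _ h3
    have h5 : 2 * (D * (2 * (D * D))) = 4 * D ^ 3 := by ring
    omega
  obtain ⟨k, hk1, hk2, -⟩ := main_inv G g hg hadj hfix (by
    intro x hx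
    have h3 : {y | g y ≠ y ∧ Near G x y}.ncard ≤ {y | Near G x y}.ncard :=
      Set.ncard_le_ncard (fun y hy => hy.2) (Set.toFinite _)
    have h4 := ball_card G D hD x
    omega)
  exact ⟨k, hk1, hk2⟩

end H331HC
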