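import Pool.Agent.H331R3.HCInv

/-! Conflict-free pairings: complete minors of order `n / 2` in dense graphs. -/

set_option autoImplicit false

namespace H331HC

open Finset

/-- all four cross pairs are edges of `H` -/
def QQ {V : Type*} (H : SimpleGraph V) (x x' y y' : V) : Prop :=
  H.Adj x y ∧ H.Adj x y' ∧ H.Adj x' y ∧ H.Adj x' y'

lemma QQ.symm {V : Type*} {H : SimpleGraph V} {x x' y y' : V} (h : QQ H x x' y y') :
    QQ H y y' x x' := ⟨h.1.symm, h.2.2.1.symm, h.2.1.symm, h.2.2.2.symm⟩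

lemma QQ.swap {V : Type*} {H : SimpleGraph V} {x x' y y' : V} (h : QQ H x x' y y') :
    QQ H x' x y y' := ⟨h.2.2.1, h.2.2.2, h.1, h.2.1⟩

lemma QQ.swap' {V : Type*} {H : SimpleGraph V} {x x' y y' : V} (h : QQ H x x' y y') :
    QQ H x x' y' y := ⟨h.2.1, h.1, h.2.2.2, h.2.2.1⟩

variable {V : Type*} [Fintype V]

/-- conflict-free pairings, as involutions -/
def GM (H : SimpleGraph V) (R : V → V → Prop) (W : Finset V) (f : V → V) : Prop :=
  (∀ x, f (f x) = x) ∧ (∀ x, f x ≠ x → R x (f x) ∧ x ∈ W) ∧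
    (∀ x y, f x ≠ x → f y ≠ y → ¬ QQ H x (f x) y (f y))

lemma exists_max_GM [DecidableEq V] (H : SimpleGraph V) (R : V → V → Prop) (W : Finset V) :
    ∃ f : V → V, GM H R W f ∧ ∀ g : V → V, GM H R W g →
        (univ.filter (fun x => g x ≠ x)).card ≤ (univ.filter (fun x => f x ≠ x)).card := by
  classical
  have hne : (univ.filter (fun f : V → V => GM H R W f)).Nonempty :=
    ⟨id, by
      rw [mem_filter]
      exact ⟨mem_univ _, fun x => rfl, fun x hx => absurd rfl hx, fun x y hx => absurd rfl hx⟩⟩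
  obtain ⟨f, hf, hmax⟩ := Finset.exists_max_image _
    (fun f : V → V => (univ.filter (fun x => f x ≠ x)).card) hne
  rw [mem_filter] at hf
  exact ⟨f, hf.2, fun g hg => hmax g (by rw [mem_filter]; exact ⟨mem_univ _, hg⟩)⟩

section aug
variable [DecidableEq V] (H : SimpleGraph V) (R : V → V → Prop) (hR : ∀ x y, R x y → R y x)
  (hRH : ∀ x y, R x y → ¬ H.Adj x y) (W : Finset V) (f : V → V)
  (hf : GM H R W f)
  (hmax : ∀ g : V → V, GM H R W g →
        (univ.filter (fun x => g x ≠ x)).card ≤ (univ.filter (fun x => f x ≠ x)).card)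

include hR hf hmax

lemma gaug_one {u a : V} (hu : f u = u) (ha : f a = a) (hua : u ≠ a) (huW : u ∈ W) (haW : a ∈ W)
    (h : R u a) (hgood : ∀ z, f z ≠ z → ¬ QQ H u a z (f z)) : False := by
  classical
  set g : V → V := fun x => if x = u then a else if x = a then u else f x with hg
  have gu : g u = a := by simp [hg]
  have ga : g a = u := by simp [hg, hua.symm]
  have go : ∀ x, x ≠ u → x ≠ a → g x = f x := by intro x h1 h2; simp [hg, h1, h2]
  have hinv : ∀ x, g (g x) = x := by
    intro x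
    by_cases h1 : x = u
    · rw [h1, gu, ga]
    by_cases h2 : x = a
    · rw [h2, ga, gu]
    rw [go x h1 h2]
    have h3 : f x ≠ u := by
      intro h; apply h1; rw [← hf.1 x, h, hu]
    have h4 : f x ≠ a := by
      intro h; apply h2; rw [← hf.1 x, h, ha]
    rw [go _ h3 h4, hf.1]
  have hnf : ∀ x, g x ≠ x → R x (g x) ∧ x ∈ W := by
    intro x hx
    by_cases h1 : x = u
    · subst h1; rw [gu]; exact ⟨h, huW⟩
    by_cases h2 : x = a
    · subst h2; rw [ga]; exact ⟨hR _ _ h, haW⟩
    rw [go x h1 h2] at hx ⊢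
    exact hf.2.1 x hx
  have hcf : ∀ x y, g x ≠ x → g y ≠ y → ¬ QQ H x (g x) y (g y) := by
    -- classify
    have hcl : ∀ x, g x ≠ x → (x = u ∨ x = a) ∨ (g x = f x ∧ f x ≠ x) := by
      intro x hx
      by_cases h1 : x = u
      · exact Or.inl (Or.inl h1)
      by_cases h2 : x = a
      · exact Or.inl (Or.inr h2)
      rw [go x h1 h2] at hx
      exact Or.inr ⟨go x h1 h2, hx⟩
    intro x y hx hy hQ
    rcases hcl x hx with (rfl | rfl) | ⟨hx1, hx2⟩ <;> rcases hcl y hy with (rfl | rfl) | ⟨hy1, hy2⟩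
    · exact H.irrefl hQ.1
    · rw [gu, ga] at hQ; exact H.irrefl hQ.2.1
    · rw [gu, hy1] at hQ; exact hgood y hy2 hQ
    · rw [ga, gu] at hQ; exact H.irrefl hQ.2.1
    · exact H.irrefl hQ.1
    · rw [ga, hy1] at hQ; exact hgood y hy2 hQ.swap
    · rw [gu, hx1] at hQ; exact hgood x hx2 hQ.symm
    · rw [ga, hx1] at hQ; exact hgood x hx2 hQ.symm.swap
    · rw [hx1, hy1] at hQ; exact hf.2.2 x y hx2 hy2 hQ
  have hlt := hmax g ⟨hinv, hnf, hcf⟩
  have hss : (univ.filter (fun x => f x ≠ x)) ⊂ (univ.filter (fun x => g x ≠ x)) := by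
    rw [Finset.ssubset_iff_of_subset]
    · refine ⟨u, ?_, ?_⟩
      · simp only [mem_filter, mem_univ, true_and, gu]; exact hua.symm
      · simp [hu]
    · intro x hx
      simp only [mem_filter, mem_univ, true_and] at hx ⊢
      have h1 : x ≠ u := by rintro rfl; exact hx hu
      have h2 : x ≠ a := by rintro rfl; exact hx ha
      rw [go x h1 h2]; exact hx
  exact absurd (Finset.card_lt_card hss) (by omega)

include hRH

lemma gaug_two {u v a : V} (hu : f u = u) (hv : f v = v) (huv : u ≠ v) (ha : f a ≠ a)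
    (huW : u ∈ W) (hvW : v ∈ W) (h1 : R u a) (h2 : R v (f a))
    (hg1 : ∀ z, f z ≠ z → ¬ QQ H u a z (f z)) (hg2 : ∀ z, f z ≠ z → ¬ QQ H v (f a) z (f z)) :
    False := by
  classical
  set b := f a with hb
  have hfb : f b = a := by rw [hb, hf.1]
  have hua : u ≠ a := by rintro rfl; exact ha hu
  have hub : u ≠ b := by rintro rfl; exact ha (by rw [← hfb, hu])
  have hva : v ≠ a := by rintro rfl; exact ha hv
  have hvb : v ≠ b := by rintro rfl; exact ha (by rw [← hfb, hv])
  have hab : a ≠ b := fun h => ha h.symm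
  have haW : a ∈ W := (hf.2.1 a ha).2
  have hbW : b ∈ W := (hf.2.1 b (by rw [hfb]; exact hab)).2
  have hHab : ¬ H.Adj a b := hRH a b (hf.2.1 a ha).1
  set g : V → V := fun x => if x = u then a else if x = a then u else
    if x = v then b else if x = b then v else f x with hg
  have gu : g u = a := by simp [hg]
  have ga : g a = u := by simp [hg, hua.symm]
  have gv : g v = b := by simp [hg, huv.symm, hva]
  have gb : g b = v := by simp [hg, hub.symm, hab.symm, hvb.symm]
  have go : ∀ x, x ≠ u → x ≠ a → x ≠ v → x ≠ b → g x = f x := by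
    intro x h1 h2 h3 h4; simp [hg, h1, h2, h3, h4]
  have hinv : ∀ x, g (g x) = x := by
    intro x
    by_cases h1 : x = u
    · rw [h1, gu, ga]
    by_cases h2 : x = a
    · rw [h2, ga, gu]
    by_cases h3 : x = v
    · rw [h3, gv, gb]
    by_cases h4 : x = b
    · rw [h4, gb, gv]
    rw [go x h1 h2 h3 h4]
    have h5 : f x ≠ u := by
      intro h; apply h1; rw [← hf.1 x, h, hu]
    have h6 : f x ≠ a := by
      intro h; apply h4; rw [← hf.1 x, h]
    have h7 : f x ≠ v := by
      intro h; apply h3; rw [← hf.1 x, h, hv]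
    have h8 : f x ≠ b := by
      intro h; apply h2; rw [← hf.1 x, h, hfb]
    rw [go _ h5 h6 h7 h8, hf.1]
  have hnf : ∀ x, g x ≠ x → R x (g x) ∧ x ∈ W := by
    intro x hx
    by_cases c1 : x = u
    · subst c1; rw [gu]; exact ⟨h1, huW⟩
    by_cases c2 : x = a
    · subst c2; rw [ga]; exact ⟨hR _ _ h1, haW⟩
    by_cases c3 : x = v
    · subst c3; rw [gv]; exact ⟨h2, hvW⟩
    by_cases c4 : x = b
    · subst c4; rw [gb]; exact ⟨hR _ _ h2, hbW⟩
    rw [go x c1 c2 c3 c4] at hx ⊢
    exact hf.2.1 x hx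
  have hcf : ∀ x y, g x ≠ x → g y ≠ y → ¬ QQ H x (g x) y (g y) := by
    have hcl : ∀ x, g x ≠ x → ((x = u ∧ g x = a) ∨ (x = a ∧ g x = u)) ∨
        ((x = v ∧ g x = b) ∨ (x = b ∧ g x = v)) ∨ (g x = f x ∧ f x ≠ x) := by
      intro x hx
      by_cases c1 : x = u
      · exact Or.inl (Or.inl ⟨c1, by rw [c1, gu]⟩)
      by_cases c2 : x = a
      · exact Or.inl (Or.inr ⟨c2, by rw [c2, ga]⟩)
      by_cases c3 : x = v
      · exact Or.inr (Or.inl (Or.inl ⟨c3, by rw [c3, gv]⟩))
      by_cases c4 : x = b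
      · exact Or.inr (Or.inl (Or.inr ⟨c4, by rw [c4, gb]⟩))
      rw [go x c1 c2 c3 c4] at hx
      exact Or.inr (Or.inr ⟨go x c1 c2 c3 c4, hx⟩)
    -- normal forms: QQ with the pair {u,a}, {v,b}, or an old pair
    have hUA : ∀ y, g y ≠ y → ¬ QQ H u a y (g y) := by
      intro y hy hQ
      rcases hcl y hy with (⟨rfl, e⟩ | ⟨rfl, e⟩) | (⟨rfl, e⟩ | ⟨rfl, e⟩) | ⟨e1, e2⟩
      · exact H.irrefl hQ.1
      · exact H.irrefl hQ.2.2.1
      · rw [e] at hQ; exact hHab hQ.2.2.2
      · exact hHab hQ.2.2.1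
      · rw [e1] at hQ; exact hg1 y e2 hQ
    have hVB : ∀ y, g y ≠ y → ¬ QQ H v b y (g y) := by
      intro y hy hQ
      rcases hcl y hy with (⟨rfl, e⟩ | ⟨rfl, e⟩) | (⟨rfl, e⟩ | ⟨rfl, e⟩) | ⟨e1, e2⟩
      · rw [e] at hQ; exact hHab hQ.2.2.2.symm
      · exact hHab hQ.2.2.1.symm
      · exact H.irrefl hQ.1
      · exact H.irrefl hQ.2.2.1
      · rw [e1] at hQ; exact hg2 y e2 hQ
    intro x y hx hy hQ
    rcases hcl x hx with (⟨rfl, e⟩ | ⟨rfl, e⟩) | (⟨rfl, e⟩ | ⟨rfl, e⟩) | ⟨e1, e2⟩
    · rw [e] at hQ; exact hUA y hy hQ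
    · rw [e] at hQ; exact hUA y hy hQ.swap
    · rw [e] at hQ; exact hVB y hy hQ
    · rw [e] at hQ; exact hVB y hy hQ.swap
    · rcases hcl y hy with (⟨rfl, e⟩ | ⟨rfl, e⟩) | (⟨rfl, e⟩ | ⟨rfl, e⟩) | ⟨e3, e4⟩
      · rw [e] at hQ; exact hUA x hx hQ.symm
      · rw [e] at hQ; exact hUA x hx hQ.symm.swap
      · rw [e] at hQ; exact hVB x hx hQ.symm
      · rw [e] at hQ; exact hVB x hx hQ.symm.swap
      · rw [e1, e3] at hQ; exact hf.2.2 x y e2 e4 hQ
  have hlt := hmax g ⟨hinv, hnf, hcf⟩
  have hss : (univ.filter (fun x => f x ≠ x)) ⊂ (univ.filter (fun x => g x ≠ x)) := by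
    rw [Finset.ssubset_iff_of_subset]
    · refine ⟨u, ?_, ?_⟩
      · simp only [mem_filter, mem_univ, true_and, gu]; exact hua.symm
      · simp [hu]
    · intro x hx
      simp only [mem_filter, mem_univ, true_and] at hx ⊢
      have c1 : x ≠ u := by rintro rfl; exact hx hu
      have c3 : x ≠ v := by rintro rfl; exact hx hv
      by_cases c2 : x = a
      · rw [c2, ga]; exact hua
      by_cases c4 : x = b
      · rw [c4, gb]; exact hvb
      rw [go x c1 c2 c3 c4]; exact hx
  exact absurd (Finset.card_lt_card hss) (by omega)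

end aug

/-- Existence of perfect conflict-free pairings. -/
lemma perfect_pairing [DecidableEq V] (H : SimpleGraph V) (R : V → V → Prop)
    (hR : ∀ x y, R x y → R y x) (hRH : ∀ x y, R x y → ¬ H.Adj x y) (hirr : ∀ x, ¬ R x x)
    [DecidableRel R] [DecidableRel H.Adj] (W : Finset V) (hW : Even W.card) (D l : ℕ)
    (hD : ∀ x, (univ.filter (fun y => H.Adj x y)).card ≤ D)
    (hl : ∀ x y, R x y → (W.filter (fun z => H.Adj x z ∧ H.Adj y z)).card ≤ l)
    (hbad : ∀ x ∈ W, 2 * ((W.filter (fun y => ¬ R x y)).card + D * l) ≤ W.card) :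
    ∃ f : V → V, (∀ x, f (f x) = x) ∧ (∀ x, x ∉ W → f x = x) ∧ (∀ x ∈ W, R x (f x)) ∧
      (∀ x ∈ W, ∀ y ∈ W, ¬ QQ H x (f x) y (f y)) := by
  classical
  obtain ⟨f, hf, hmax⟩ := exists_max_GM H R W
  suffices hall : ∀ x ∈ W, f x ≠ x by
    exact ⟨f, hf.1, fun x hx => by_contra fun h => hx (hf.2.1 x h).2,
      fun x hx => (hf.2.1 x (hall x hx)).1,
      fun x hx y hy => hf.2.2 x y (hall x hx) (hall y hy)⟩
  by_contra hcon
  push Not at hcon
  obtain ⟨u, huW, hfu⟩ := hcon
  have hsub : univ.filter (fun x => f x ≠ x) ⊆ W.erase u := by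
    intro x hx
    simp only [mem_filter, mem_univ, true_and] at hx
    rw [mem_erase]
    exact ⟨by rintro rfl; exact hx hfu, (hf.2.1 x hx).2⟩
  have hne : univ.filter (fun x => f x ≠ x) ≠ W.erase u := by
    intro h
    have h1 := even_nonfixed f hf.1
    rw [h, card_erase_of_mem huW] at h1
    have h2 : 0 < W.card := card_pos.2 ⟨u, huW⟩
    rw [Nat.even_iff] at h1 hW
    omega
  obtain ⟨v, hv1, hv2⟩ := Finset.exists_of_ssubset (lt_of_le_of_ne hsub hne)
  rw [mem_erase] at hv1
  have hfv : f v = v := by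
    by_contra h; exact hv2 (by simp [h])
  have huv : u ≠ v := fun h => hv1.1 h.symm
  -- good partners
  let good : V → V → Prop := fun x a => R x a ∧ ∀ z, f z ≠ z → ¬ QQ H x a z (f z)
  have hgood : ∀ x ∈ W, W.card ≤ 2 * (W.filter (fun a => good x a)).card := by
    intro x hx
    have h1 : W.filter (fun a => ¬ good x a) ⊆ W.filter (fun y => ¬ R x y) ∪
        ((univ.filter (fun z => H.Adj x z)).filter (fun z => f z ≠ z)).biUnion
          (fun z => W.filter (fun a => H.Adj z a ∧ H.Adj (f z) a)) := by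
      intro a ha
      rw [mem_filter] at ha
      rw [mem_union]
      by_cases hRa : R x a
      · right
        have : ∃ z, f z ≠ z ∧ QQ H x a z (f z) := by
          by_contra hc
          push Not at hc
          exact ha.2 ⟨hRa, hc⟩
        obtain ⟨z, hz1, hz2⟩ := this
        rw [mem_biUnion]
        exact ⟨z, by simp only [mem_filter, mem_univ, true_and]; exact ⟨hz2.1, hz1⟩,
          by rw [mem_filter]; exact ⟨ha.1, hz2.2.2.1.symm, hz2.2.2.2.symm⟩⟩
      · left
        rw [mem_filter]; exact ⟨ha.1, hRa⟩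
    have h2 : (((univ.filter (fun z => H.Adj x z)).filter (fun z => f z ≠ z)).biUnion
          (fun z => W.filter (fun a => H.Adj z a ∧ H.Adj (f z) a))).card ≤ D * l := by
      refine card_biUnion_le.trans ?_
      calc ∑ z ∈ (univ.filter (fun z => H.Adj x z)).filter (fun z => f z ≠ z),
            (W.filter (fun a => H.Adj z a ∧ H.Adj (f z) a)).card
          ≤ ∑ z ∈ (univ.filter (fun z => H.Adj x z)).filter (fun z => f z ≠ z), l := by
            refine sum_le_sum (fun z hz => ?_)
            rw [mem_filter] at hz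
            exact hl z (f z) (hf.2.1 z hz.2).1
        _ = ((univ.filter (fun z => H.Adj x z)).filter (fun z => f z ≠ z)).card * l := by
            rw [sum_const, smul_eq_mul]
        _ ≤ D * l := Nat.mul_le_mul_right _ ((card_le_card (filter_subset _ _)).trans (hD x))
    have h3 := (card_le_card h1).trans (card_union_le _ _)
    have h4 := Finset.card_filter_add_card_filter_not (s := W) (fun a => good x a)
    have h5 := hbad x hx
    omega
  set A := W.filter (fun y => good u y) with hA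
  set B := (W.filter (fun y => good v y)).image f with hB
  have hAn : ∀ a ∈ A, f a ≠ a := by
    intro a ha hfa
    rw [hA, mem_filter] at ha
    exact gaug_one H R hR W f hf hmax hfu hfa (by rintro rfl; exact hirr _ ha.2.1) huW ha.1
      ha.2.1 ha.2.2
  have hBn : ∀ a ∈ W.filter (fun y => good v y), f a ≠ a := by
    intro a ha hfa
    rw [mem_filter] at ha
    exact gaug_one H R hR W f hf hmax hfv hfa (by rintro rfl; exact hirr _ ha.2.1) hv1.2 ha.1
      ha.2.1 ha.2.2
  have hAs : A ⊆ (W.erase u).erase v := by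
    intro a ha
    have h1 := hAn a ha
    rw [mem_erase, mem_erase]
    exact ⟨by rintro rfl; exact h1 hfv, by rintro rfl; exact h1 hfu, (mem_filter.1 ha).1⟩
  have hBs : B ⊆ (W.erase u).erase v := by
    intro a ha
    obtain ⟨b, hb, rfl⟩ := mem_image.1 ha
    have h1 := hBn b hb
    have h2 : f (f b) ≠ f b := by rw [hf.1]; exact fun h => h1 h.symm
    rw [mem_erase, mem_erase]
    exact ⟨fun h => h2 (by rw [h, hfv]), fun h => h2 (by rw [h, hfu]), (hf.2.1 _ h2).2⟩
  have hBc : B.card = (W.filter (fun y => good v y)).card := by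
    rw [hB, card_image_of_injective]
    intro x y hxy
    have := congrArg f hxy
    rwa [hf.1, hf.1] at this
  have hdis : Disjoint A B := by
    rw [Finset.disjoint_left]
    intro a ha hb
    obtain ⟨b, hb', rfl⟩ := mem_image.1 hb
    have h1 := hAn _ ha
    have hgb := (mem_filter.1 hb').2
    have hga := (mem_filter.1 ha).2
    refine gaug_two H R hR hRH W f hf hmax (a := f b) hfu hfv huv h1 huW hv1.2 hga.1 ?_ hga.2 ?_
    · rw [hf.1]; exact hgb.1
    · rw [hf.1]; exact hgb.2
  have hc := card_le_card (union_subset hAs hBs)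
  rw [card_union_of_disjoint hdis, hBc, hA] at hc
  have hc2 : ((W.erase u).erase v).card = W.card - 2 := by
    rw [card_erase_of_mem (by rw [mem_erase]; exact hv1), card_erase_of_mem huW]
    omega
  have hd1 := hgood u huW
  have hd2 := hgood v hv1.2
  have hW0 : 2 ≤ W.card := by
    have : ({u, v} : Finset V) ⊆ W := by
      intro x hx
      rw [mem_insert, mem_singleton] at hx
      rcases hx with rfl | rfl
      · exact huW
      · exact hv1.2
    have := card_le_card this
    rwa [card_pair huv] at this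
  omega

/-- Clique minors from conflict-free pairings. -/
lemma minor_of_pairing [DecidableEq V] (G : SimpleGraph V) (W : Finset V)
    (hWc : (univ \ W).card ≤ 1) (f : V → V) (hf1 : ∀ x, f (f x) = x)
    (hf2 : ∀ x, x ∉ W → f x = x) (hf3 : ∀ x ∈ W, x ≠ f x ∧ G.Adj x (f x) ∧
      (∀ s, s ∉ W → ¬ (Gᶜ.Adj x s ∧ Gᶜ.Adj (f x) s)))
    (hf4 : ∀ x ∈ W, ∀ y ∈ W, ¬ QQ Gᶜ x (f x) y (f y)) :
    KMinor G (univ.image (fun x => ({x, f x} : Finset V))).card := by
  classical
  rw [← Fintype.card_coe (univ.image (fun x => ({x, f x} : Finset V)))]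
  have hff : ∀ x, f x = x → x ∉ W := fun x hx hW => (hf3 x hW).1 hx.symm
  refine KMinor.of_family G (fun c => ((c.1 : Finset V) : Set V)) ?_ ?_ ?_
  · rintro ⟨c, hc⟩
    obtain ⟨x, -, rfl⟩ := mem_image.1 hc
    by_cases hx : f x = x
    · have : (((({x, f x} : Finset V)) : Set V)) = {x} := by rw [hx]; simp
      simp only
      rw [this]
      exact connected_single G x
    · have hxW : x ∈ W := by by_contra h; exact hx (hf2 x h)
      have : (((({x, f x} : Finset V)) : Set V)) = {x, f x} := by simp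
      simp only
      rw [this]
      exact connected_pair G (hf3 x hxW).2.1
  · rintro ⟨c, hc⟩ ⟨d, hd⟩ hcd
    obtain ⟨x, -, rfl⟩ := mem_image.1 hc
    obtain ⟨y, -, rfl⟩ := mem_image.1 hd
    simp only
    rw [Finset.disjoint_coe, Finset.disjoint_left]
    intro z hz hz'
    apply hcd
    apply Subtype.ext
    simp only
    have key : ∀ a b, a ∈ ({b, f b} : Finset V) → ({b, f b} : Finset V) = {a, f a} := by
      intro a b hab
      rw [mem_insert, mem_singleton] at hab
      rcases hab with rfl | rfl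
      · rfl
      · rw [hf1]; exact Finset.pair_comm _ _
    rw [key z x hz, key z y hz']
  · rintro ⟨c, hc⟩ ⟨d, hd⟩ hcd
    obtain ⟨x, -, rfl⟩ := mem_image.1 hc
    obtain ⟨y, -, rfl⟩ := mem_image.1 hd
    have hcd' : ({x, f x} : Finset V) ≠ {y, f y} := fun h => hcd (Subtype.ext h)
    have hxy : x ≠ y := by rintro rfl; exact hcd' rfl
    have hfxy : f x ≠ y := by
      rintro rfl
      apply hcd'
      rw [hf1]; exact Finset.pair_comm _ _
    have hfyx : f y ≠ x := by
      rintro rfl
      apply hcd'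
      rw [hf1]; exact Finset.pair_comm _ _
    have hff' : f x ≠ f y := by
      intro h
      exact hxy (by rw [← hf1 x, h, hf1])
    by_contra hcon
    push Not at hcon
    have c1 : ¬ G.Adj x y := hcon x (by simp) y (by simp)
    have c2 : ¬ G.Adj x (f y) := hcon x (by simp) (f y) (by simp)
    have c3 : ¬ G.Adj (f x) y := hcon (f x) (by simp) y (by simp)
    have c4 : ¬ G.Adj (f x) (f y) := hcon (f x) (by simp) (f y) (by simp)
    by_cases hx : x ∈ W
    · by_cases hy : y ∈ W
      · exact hf4 x hx y hy ⟨(SimpleGraph.compl_adj G _ _).2 ⟨hxy, c1⟩,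
          (SimpleGraph.compl_adj G _ _).2 ⟨fun h => hfyx h.symm, c2⟩,
          (SimpleGraph.compl_adj G _ _).2 ⟨hfxy, c3⟩,
          (SimpleGraph.compl_adj G _ _).2 ⟨hff', c4⟩⟩
      · exact (hf3 x hx).2.2 y hy ⟨(SimpleGraph.compl_adj G _ _).2 ⟨hxy, c1⟩,
          (SimpleGraph.compl_adj G _ _).2 ⟨hfxy, c3⟩⟩
    · by_cases hy : y ∈ W
      · exact (hf3 y hy).2.2 x hx ⟨(SimpleGraph.compl_adj G _ _).2 ⟨hxy.symm, fun h => c1 h.symm⟩,
          (SimpleGraph.compl_adj G _ _).2 ⟨hfyx, fun h => c2 h.symm⟩⟩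
      · exact hxy (Finset.card_le_one.1 hWc x (by simp [hx]) y (by simp [hy]))

/-- counting lemma -/
lemma half_aux [DecidableEq V] (G : SimpleGraph V) (D : ℕ)
    (hD : ∀ x, {y | Gᶜ.Adj x y}.ncard ≤ D)
    (hn : 169 * D ^ 3 ≤ Fintype.card V ^ 2) (W : Finset V) (hW : Even W.card)
    (hWc : (univ \ W).card ≤ 1) :
    KMinor G ((Fintype.card V + (univ \ W).card) / 2) := by
  classical
  have hNc : ∀ x, (univ.filter (fun y => Gᶜ.Adj x y)).card ≤ D := by
    intro x
    have := hD x
    rwa [Set.ncard_eq_toFinset_card' {y | Gᶜ.Adj x y}, Set.toFinset_ofPred] at this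
  set r := Nat.sqrt D with hr
  have hr1 : r * r ≤ D := Nat.sqrt_le D
  have hr2 : D < (r + 1) * (r + 1) := Nat.lt_succ_sqrt D
  let R : V → V → Prop := fun x y => x ≠ y ∧ G.Adj x y ∧
    (∀ s, s ∉ W → ¬ (Gᶜ.Adj x s ∧ Gᶜ.Adj y s)) ∧
    (W.filter (fun z => Gᶜ.Adj x z ∧ Gᶜ.Adj y z)).card ≤ r
  have hRs : ∀ x y, R x y → R y x := by
    rintro x y ⟨h1, h2, h3, h4⟩
    refine ⟨h1.symm, h2.symm, fun s hs h => h3 s hs ⟨h.2, h.1⟩, ?_⟩
    have : W.filter (fun z => Gᶜ.Adj y z ∧ Gᶜ.Adj x z) = W.filter (fun z => Gᶜ.Adj x z ∧ Gᶜ.Adj y z) := by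
      ext z; simp only [mem_filter]; tauto
    rw [this]; exact h4
  have hcW : W.card + (univ \ W).card = Fintype.card V := by
    rw [Finset.card_sdiff_of_subset (subset_univ W), Finset.card_univ]
    have := Finset.card_le_univ W
    omega
  have hbad : ∀ x ∈ W, 2 * ((W.filter (fun y => ¬ R x y)).card + D * r) ≤ W.card := by
    intro x hx
    set X : Finset V := univ.filter (fun y => r < (W.filter (fun z => Gᶜ.Adj x z ∧ Gᶜ.Adj y z)).card)
      with hX
    have h1 : W.filter (fun y => ¬ R x y) ⊆ (({x} ∪ univ.filter (fun y => Gᶜ.Adj x y)) ∪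
        (univ \ W).biUnion (fun s => univ.filter (fun y => Gᶜ.Adj s y))) ∪ X := by
      intro y hy
      rw [mem_filter] at hy
      rw [mem_union, mem_union, mem_union, mem_singleton]
      by_cases h1 : x = y
      · exact Or.inl (Or.inl (Or.inl h1.symm))
      by_cases h2 : G.Adj x y
      · by_cases h3 : ∀ s, s ∉ W → ¬ (Gᶜ.Adj x s ∧ Gᶜ.Adj y s)
        · right
          rw [hX, mem_filter]
          refine ⟨mem_univ _, ?_⟩
          by_contra h4
          exact hy.2 ⟨h1, h2, h3, not_lt.1 h4⟩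
        · push Not at h3
          obtain ⟨s, hs, hs1, hs2⟩ := h3
          left; right
          rw [mem_biUnion]
          exact ⟨s, by simp [hs], by simp only [mem_filter, mem_univ, true_and]; exact hs2.symm⟩
      · left; left; right
        simp only [mem_filter, mem_univ, true_and]
        exact (SimpleGraph.compl_adj G _ _).2 ⟨h1, h2⟩
    have h2 : ((univ \ W).biUnion (fun s => univ.filter (fun y => Gᶜ.Adj s y))).card ≤ D := by
      calc ((univ \ W).biUnion (fun s => univ.filter (fun y => Gᶜ.Adj s y))).card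
          ≤ ∑ s ∈ univ \ W, (univ.filter (fun y => Gᶜ.Adj s y)).card := card_biUnion_le
        _ ≤ ∑ s ∈ univ \ W, D := sum_le_sum (fun s _ => hNc s)
        _ = (univ \ W).card * D := by rw [sum_const, smul_eq_mul]
        _ ≤ 1 * D := Nat.mul_le_mul_right _ hWc
        _ = D := one_mul _
    have h3 : (r + 1) * X.card ≤ D * D := by
      calc (r + 1) * X.card = ∑ y ∈ X, (r + 1) := by rw [sum_const, smul_eq_mul, mul_comm]
        _ ≤ ∑ y ∈ X, (W.filter (fun z => Gᶜ.Adj x z ∧ Gᶜ.Adj y z)).card :=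
            sum_le_sum (fun y hy => (mem_filter.1 hy).2)
        _ ≤ ∑ y, (W.filter (fun z => Gᶜ.Adj x z ∧ Gᶜ.Adj y z)).card :=
            sum_le_sum_of_subset (subset_univ _)
        _ ≤ ∑ y, ∑ z ∈ univ.filter (fun z => Gᶜ.Adj x z), (if Gᶜ.Adj z y then 1 else 0) := by
            refine sum_le_sum (fun y _ => ?_)
            rw [← Finset.card_filter, Finset.filter_filter]
            refine card_le_card ?_
            intro z hz
            simp only [mem_filter, mem_univ, true_and] at hz ⊢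
            exact ⟨hz.2.1, hz.2.2.symm⟩
        _ = ∑ z ∈ univ.filter (fun z => Gᶜ.Adj x z), ∑ y, (if Gᶜ.Adj z y then 1 else 0) :=
            sum_comm
        _ = ∑ z ∈ univ.filter (fun z => Gᶜ.Adj x z), (univ.filter (fun y => Gᶜ.Adj z y)).card := by
            refine sum_congr rfl (fun z _ => ?_)
            rw [← Finset.card_filter]
        _ ≤ ∑ z ∈ univ.filter (fun z => Gᶜ.Adj x z), D := sum_le_sum (fun z _ => hNc z)
        _ = (univ.filter (fun z => Gᶜ.Adj x z)).card * D := by rw [sum_const, smul_eq_mul]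
        _ ≤ D * D := Nat.mul_le_mul_right _ (hNc x)
    have h4 : X.card ≤ D * (r + 1) := by
      have h5 : (r + 1) * X.card ≤ (r + 1) * (D * (r + 1)) := by
        calc (r + 1) * X.card ≤ D * D := h3
          _ ≤ D * ((r + 1) * (r + 1)) := Nat.mul_le_mul_left _ hr2.le
          _ = (r + 1) * (D * (r + 1)) := by ring
      exact Nat.le_of_mul_le_mul_left h5 (Nat.succ_pos r)
    have h6 : (W.filter (fun y => ¬ R x y)).card ≤ 1 + D + D + D * (r + 1) := by
      refine (card_le_card h1).trans ((card_union_le _ _).trans ?_)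
      refine Nat.add_le_add ?_ h4
      refine (card_union_le _ _).trans (Nat.add_le_add ?_ h2)
      refine (card_union_le _ _).trans (Nat.add_le_add ?_ (hNc x))
      rw [card_singleton]
    have h7 : 2 ≤ W.card := by
      have : 0 < W.card := card_pos.2 ⟨x, hx⟩
      rw [Nat.even_iff] at hW
      omega
    rcases Nat.eq_zero_or_pos D with hD0 | hD0
    · rw [hD0] at h6 ⊢
      simp only [zero_mul, add_zero] at h6 ⊢
      omega
    · have hr0 : 1 ≤ r := by
        by_contra h
        have : r = 0 := by omega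
        rw [this] at hr2
        omega
      have h8 : (13 * (D * r)) ^ 2 ≤ Fintype.card V ^ 2 := by
        refine le_trans ?_ hn
        have h9 : (13 * (D * r)) ^ 2 = 169 * (D * D * (r * r)) := by ring
        have h10 : 169 * D ^ 3 = 169 * (D * D * D) := by ring
        rw [h9, h10]
        exact Nat.mul_le_mul_left _ (Nat.mul_le_mul_left _ hr1)
      have h9 : 13 * (D * r) ≤ Fintype.card V := by
        by_contra h
        push Not at h
        exact absurd h8 (not_le.2 (Nat.pow_lt_pow_left h (by norm_num)))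
      have h10 : D ≤ D * r := Nat.le_mul_of_pos_right D hr0
      have h11 : D * (r + 1) = D * r + D := by ring
      omega
  obtain ⟨f, hf1, hf2, hf3, hf4⟩ := perfect_pairing Gᶜ R hRs
    (fun x y h h' => ((SimpleGraph.compl_adj G _ _).1 h').2 h.2.1) (fun x h => h.1 rfl) W hW D r
    hNc (fun x y h => h.2.2.2) hbad
  have hm := minor_of_pairing G W hWc f hf1 hf2 (fun x hx => ⟨(hf3 x hx).1, (hf3 x hx).2.1,
    (hf3 x hx).2.2.1⟩) hf4
  have ho := orb_card f hf1
  have hfix : univ.filter (fun x => f x = x) = univ \ W := by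
    ext x
    simp only [mem_filter, mem_univ, true_and, mem_sdiff]
    exact ⟨fun h hx => (hf3 x hx).1 h.symm, hf2 x⟩
  rw [hfix] at ho
  rw [← ho, Nat.mul_div_cancel_left _ (by norm_num)]
  exact hm

/-- If every vertex has at most `D` non-neighbours and `169 * D ^ 3 ≤ n ^ 2`, then there is a
clique minor of order `⌈n / 2⌉`. -/
theorem half (G : SimpleGraph V) (D : ℕ)
    (hD : ∀ x, {y | Gᶜ.Adj x y}.ncard ≤ D)
    (hn : 169 * D ^ 3 ≤ Fintype.card V ^ 2) : KMinor G ((Fintype.card V + 1) / 2) := by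
  classical
  rcases Nat.even_or_odd (Fintype.card V) with he | ho
  · have := half_aux G D hD hn univ (by rwa [Finset.card_univ]) (by simp)
    simp at this
    refine this.mono ?_
    rw [Nat.even_iff] at he
    omega
  · have hpos : 0 < Fintype.card V := ho.pos
    obtain ⟨s⟩ := Fintype.card_pos_iff.1 hpos
    have hc : (univ \ univ.erase s : Finset V) = {s} := by
      ext x; simp
    have := half_aux G D hD hn (univ.erase s) (by
      rw [card_erase_of_mem (mem_univ s), Finset.card_univ]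
      rw [Nat.odd_iff] at ho
      rw [Nat.even_iff]
      omega) (by rw [hc]; simp)
    rw [hc, card_singleton] at this
    exact this

end H331HC
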