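import Mathlib

/-! Involutions as matchings; a Dirac type lemma; clique minors from involutions. -/

set_option autoImplicit false

namespace H331HC

open Finset

/-- `G` has a `K_k` minor, given by `k` disjoint connected pairwise adjacent vertex sets. -/
def KMinor {V : Type*} (G : SimpleGraph V) (k : ℕ) : Prop :=
  ∃ f : Fin k → Set V,
    (∀ i, (G.induce (f i)).Connected) ∧
    (∀ i j, i ≠ j → Disjoint (f i) (f j)) ∧
    (∀ i j, i ≠ j → ∃ u ∈ f i, ∃ v ∈ f j, G.Adj u v)

section
variable {V : Type*}

lemma KMinor.of_family {ι : Type*} [Fintype ι] (G : SimpleGraph V) (B : ι → Set V)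
    (h1 : ∀ i, (G.induce (B i)).Connected) (h2 : ∀ i j, i ≠ j → Disjoint (B i) (B j))
    (h3 : ∀ i j, i ≠ j → ∃ u ∈ B i, ∃ v ∈ B j, G.Adj u v) : KMinor G (Fintype.card ι) := by
  classical
  refine ⟨fun i => B ((Fintype.equivFin ι).symm i), fun i => h1 _, fun i j hij => h2 _ _ ?_,
    fun i j hij => h3 _ _ ?_⟩
  · intro h; exact hij ((Fintype.equivFin ι).symm.injective h)
  · intro h; exact hij ((Fintype.equivFin ι).symm.injective h)

lemma KMinor.mono {G : SimpleGraph V} {k l : ℕ} (h : KMinor G k) (hl : l ≤ k) : KMinor G l := by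
  obtain ⟨f, h1, h2, h3⟩ := h
  refine ⟨fun i => f (Fin.castLE hl i), fun i => h1 _, fun i j hij => h2 _ _ ?_,
    fun i j hij => h3 _ _ ?_⟩
  · intro h; exact hij (Fin.castLE_injective hl h)
  · intro h; exact hij (Fin.castLE_injective hl h)

lemma connected_single (G : SimpleGraph V) (x : V) : (G.induce ({x} : Set V)).Connected := by
  have : Nonempty ({x} : Set V) := ⟨⟨x, rfl⟩⟩
  refine ⟨fun a b => ?_⟩
  have : a = b := Subtype.ext (a.2.trans b.2.symm)
  rw [this]

lemma connected_pair (G : SimpleGraph V) {x y : V} (h : G.Adj x y) :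
    (G.induce ({x, y} : Set V)).Connected := by
  exact SimpleGraph.induce_pair_connected_of_adj h

variable [Fintype V] [DecidableEq V]

/-- The number of orbits of an involution. -/
lemma orb_card (f : V → V) (hf : ∀ x, f (f x) = x) :
    2 * (univ.image (fun x => ({x, f x} : Finset V))).card =
      Fintype.card V + (univ.filter (fun x => f x = x)).card := by
  classical
  set I := univ.image (fun x => ({x, f x} : Finset V)) with hI
  have h1 : Fintype.card V = ∑ c ∈ I, (univ.filter (fun x => ({x, f x} : Finset V) = c)).card := by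
    rw [← Finset.card_univ]
    exact Finset.card_eq_sum_card_fiberwise (fun x _ => Finset.mem_image_of_mem _ (mem_univ x))
  have h2 : (univ.filter (fun x => f x = x)).card =
      ∑ c ∈ I, ((univ.filter (fun x => f x = x)).filter
        (fun x => ({x, f x} : Finset V) = c)).card :=
    Finset.card_eq_sum_card_fiberwise (fun x _ => Finset.mem_image_of_mem _ (mem_univ x))
  rw [h1, h2, ← Finset.sum_add_distrib]
  have h3 : ∀ c ∈ I, (univ.filter (fun x => ({x, f x} : Finset V) = c)).card +
      ((univ.filter (fun x => f x = x)).filter (fun x => ({x, f x} : Finset V) = c)).card = 2 := by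
    intro c hc
    obtain ⟨x, -, rfl⟩ := Finset.mem_image.1 hc
    have key : ∀ y, (({y, f y} : Finset V) = {x, f x}) ↔ (y = x ∨ y = f x) := by
      intro y
      constructor
      · intro h
        have : y ∈ ({x, f x} : Finset V) := by rw [← h]; simp
        simpa using this
      · rintro (rfl | rfl)
        · rfl
        · rw [hf]; exact Finset.pair_comm _ _
    by_cases hx : f x = x
    · have e1 : univ.filter (fun y => ({y, f y} : Finset V) = {x, f x}) = {x} := by
        ext y
        rw [mem_filter, key y, hx]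
        simp
      have e2 : (univ.filter (fun y => f y = y)).filter
          (fun y => ({y, f y} : Finset V) = {x, f x}) = {x} := by
        ext y
        rw [mem_filter, mem_filter, key y, hx, mem_singleton]
        constructor
        · exact fun h => by simpa using h.2
        · rintro rfl; exact ⟨⟨mem_univ _, hx⟩, Or.inl rfl⟩
      rw [e1, e2]; simp
    · have e1 : univ.filter (fun y => ({y, f y} : Finset V) = {x, f x}) = {x, f x} := by
        ext y; simp only [mem_filter, mem_univ, true_and, mem_insert, mem_singleton, key]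
      have e2 : (univ.filter (fun y => f y = y)).filter
          (fun y => ({y, f y} : Finset V) = {x, f x}) = ∅ := by
        ext y
        simp only [mem_filter, mem_univ, true_and, key, notMem_empty, iff_false, not_and]
        rintro hy (rfl | rfl)
        · exact hx hy
        · rw [hf] at hy; exact hx hy.symm
      rw [e1, e2, Finset.card_pair (fun h => hx h.symm)]; simp
  rw [Finset.sum_congr rfl h3, Finset.sum_const, smul_eq_mul, mul_comm]

/-- the number of non-fixed points of an involution is even -/
lemma even_nonfixed (f : V → V) (hf : ∀ x, f (f x) = x) :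
    Even (univ.filter (fun x => f x ≠ x)).card := by
  classical
  have h := orb_card f hf
  have h2 : (univ.filter (fun x => f x = x)).card + (univ.filter (fun x => f x ≠ x)).card =
      Fintype.card V := by
    rw [Finset.card_filter_add_card_filter_not, Finset.card_univ]
  rw [Nat.even_iff]
  omega

/-- Extremal choice of an involution. -/
lemma exists_max_inv (R : V → V → Prop) (W : Finset V) :
    ∃ f : V → V, ((∀ x, f (f x) = x) ∧ (∀ x, f x ≠ x → R x (f x) ∧ x ∈ W)) ∧
      ∀ g : V → V, ((∀ x, g (g x) = x) ∧ (∀ x, g x ≠ x → R x (g x) ∧ x ∈ W)) →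
        (univ.filter (fun x => g x ≠ x)).card ≤ (univ.filter (fun x => f x ≠ x)).card := by
  classical
  have hne : (univ.filter (fun f : V → V => (∀ x, f (f x) = x) ∧
      (∀ x, f x ≠ x → R x (f x) ∧ x ∈ W))).Nonempty :=
    ⟨id, by simp⟩
  obtain ⟨f, hf, hmax⟩ := Finset.exists_max_image _
    (fun f : V → V => (univ.filter (fun x => f x ≠ x)).card) hne
  rw [mem_filter] at hf
  exact ⟨f, hf.2, fun g hg => hmax g (by rw [mem_filter]; exact ⟨mem_univ _, hg⟩)⟩

lemma aug_one (R : V → V → Prop) (hR : ∀ x y, R x y → R y x) (W : Finset V) (f : V → V)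
    (hf : (∀ x, f (f x) = x) ∧ (∀ x, f x ≠ x → R x (f x) ∧ x ∈ W))
    (hmax : ∀ g : V → V, ((∀ x, g (g x) = x) ∧ (∀ x, g x ≠ x → R x (g x) ∧ x ∈ W)) →
        (univ.filter (fun x => g x ≠ x)).card ≤ (univ.filter (fun x => f x ≠ x)).card)
    {u a : V} (hu : f u = u) (ha : f a = a) (hua : u ≠ a) (huW : u ∈ W) (haW : a ∈ W)
    (h : R u a) : False := by
  classical
  set g : V → V := fun x => if x = u then a else if x = a then u else f x with hg
  have gu : g u = a := by simp [hg]
  have ga : g a = u := by simp [hg, hua.symm]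
  have go : ∀ x, x ≠ u → x ≠ a → g x = f x := by intro x h1 h2; simp [hg, h1, h2]
  have hinv : ∀ x, g (g x) = x := by
    intro x
    by_cases h1 : x = u
    · rw [h1, gu, ga]
    by_cases h2 : x = a
    · rw [h2, ga, gu]
    rw [go x h1 h2]
    have h3 : f x ≠ u := by
      intro h; apply h1; rw [← hf.1 x, h, hu]
    have h4 : f x ≠ a := by
      intro h; apply h2; rw [← hf.1 x, h, ha]
    rw [go _ h3 h4, hf.1]
  have hnf : ∀ x, g x ≠ x → R x (g x) ∧ x ∈ W := by
    intro x hx
    by_cases h1 : x = u
    · subst h1; rw [gu]; exact ⟨h, huW⟩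
    by_cases h2 : x = a
    · subst h2; rw [ga]; exact ⟨hR _ _ h, haW⟩
    rw [go x h1 h2] at hx ⊢
    exact hf.2 x hx
  have hlt := hmax g ⟨hinv, hnf⟩
  have hss : (univ.filter (fun x => f x ≠ x)) ⊂ (univ.filter (fun x => g x ≠ x)) := by
    rw [Finset.ssubset_iff_of_subset]
    · refine ⟨u, ?_, ?_⟩
      · simp only [mem_filter, mem_univ, true_and, gu]; exact hua.symm
      · simp [hu]
    · intro x hx
      simp only [mem_filter, mem_univ, true_and] at hx ⊢
      have h1 : x ≠ u := by rintro rfl; exact hx hu
      have h2 : x ≠ a := by rintro rfl; exact hx ha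
      rw [go x h1 h2]; exact hx
  exact absurd (Finset.card_lt_card hss) (by omega)

lemma aug_two (R : V → V → Prop) (hR : ∀ x y, R x y → R y x) (W : Finset V) (f : V → V)
    (hf : (∀ x, f (f x) = x) ∧ (∀ x, f x ≠ x → R x (f x) ∧ x ∈ W))
    (hmax : ∀ g : V → V, ((∀ x, g (g x) = x) ∧ (∀ x, g x ≠ x → R x (g x) ∧ x ∈ W)) →
        (univ.filter (fun x => g x ≠ x)).card ≤ (univ.filter (fun x => f x ≠ x)).card)
    {u v a : V} (hu : f u = u) (hv : f v = v) (huv : u ≠ v) (ha : f a ≠ a)
    (huW : u ∈ W) (hvW : v ∈ W) (h1 : R u a) (h2 : R v (f a)) : False := by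
  classical
  set b := f a with hb
  have hfb : f b = a := by rw [hb, hf.1]
  have hua : u ≠ a := by rintro rfl; exact ha hu
  have hub : u ≠ b := by rintro rfl; exact ha (by rw [← hfb, hu])
  have hva : v ≠ a := by rintro rfl; exact ha hv
  have hvb : v ≠ b := by rintro rfl; exact ha (by rw [← hfb, hv])
  have hab : a ≠ b := fun h => ha h.symm
  have haW : a ∈ W := (hf.2 a ha).2
  have hbW : b ∈ W := (hf.2 b (by rw [hfb]; exact hab)).2
  set g : V → V := fun x => if x = u then a else if x = a then u else
    if x = v then b else if x = b then v else f x with hg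
  have gu : g u = a := by simp [hg]
  have ga : g a = u := by simp [hg, hua.symm]
  have gv : g v = b := by simp [hg, huv.symm, hva]
  have gb : g b = v := by simp [hg, hub.symm, hab.symm, hvb.symm]
  have go : ∀ x, x ≠ u → x ≠ a → x ≠ v → x ≠ b → g x = f x := by
    intro x h1 h2 h3 h4; simp [hg, h1, h2, h3, h4]
  have hinv : ∀ x, g (g x) = x := by
    intro x
    by_cases h1 : x = u
    · rw [h1, gu, ga]
    by_cases h2 : x = a
    · rw [h2, ga, gu]
    by_cases h3 : x = v
    · rw [h3, gv, gb]
    by_cases h4 : x = b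
    · rw [h4, gb, gv]
    rw [go x h1 h2 h3 h4]
    have h5 : f x ≠ u := by
      intro h; apply h1; rw [← hf.1 x, h, hu]
    have h6 : f x ≠ a := by
      intro h; apply h4; rw [← hf.1 x, h]
    have h7 : f x ≠ v := by
      intro h; apply h3; rw [← hf.1 x, h, hv]
    have h8 : f x ≠ b := by
      intro h; apply h2; rw [← hf.1 x, h, hfb]
    rw [go _ h5 h6 h7 h8, hf.1]
  have hnf : ∀ x, g x ≠ x → R x (g x) ∧ x ∈ W := by
    intro x hx
    by_cases c1 : x = u
    · subst c1; rw [gu]; exact ⟨h1, huW⟩
    by_cases c2 : x = a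
    · subst c2; rw [ga]; exact ⟨hR _ _ h1, haW⟩
    by_cases c3 : x = v
    · subst c3; rw [gv]; exact ⟨h2, hvW⟩
    by_cases c4 : x = b
    · subst c4; rw [gb]; exact ⟨hR _ _ h2, hbW⟩
    rw [go x c1 c2 c3 c4] at hx ⊢
    exact hf.2 x hx
  have hlt := hmax g ⟨hinv, hnf⟩
  have hss : (univ.filter (fun x => f x ≠ x)) ⊂ (univ.filter (fun x => g x ≠ x)) := by
    rw [Finset.ssubset_iff_of_subset]
    · refine ⟨u, ?_, ?_⟩
      · simp only [mem_filter, mem_univ, true_and, gu]; exact hua.symm
      · simp [hu]
    · intro x hx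
      simp only [mem_filter, mem_univ, true_and] at hx ⊢
      have c1 : x ≠ u := by rintro rfl; exact hx hu
      have c3 : x ≠ v := by rintro rfl; exact hx hv
      by_cases c2 : x = a
      · rw [c2, ga]; exact hua
      by_cases c4 : x = b
      · rw [c4, gb]; exact hvb
      rw [go x c1 c2 c3 c4]; exact hx
  exact absurd (Finset.card_lt_card hss) (by omega)

/-- Dirac type lemma: perfect matchings from minimum degree. -/
lemma dirac (R : V → V → Prop) (hR : ∀ x y, R x y → R y x) (hirr : ∀ x, ¬ R x x)
    [DecidableRel R] (W : Finset V) (hW : Even W.card)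
    (hdeg : ∀ x ∈ W, W.card ≤ 2 * (W.filter (fun y => R x y)).card) :
    ∃ f : V → V, (∀ x, f (f x) = x) ∧ (∀ x, x ∉ W → f x = x) ∧ (∀ x ∈ W, R x (f x)) := by
  classical
  obtain ⟨f, hf, hmax⟩ := exists_max_inv R W
  refine ⟨f, hf.1, fun x hx => by_contra fun h => hx (hf.2 x h).2, ?_⟩
  by_contra hcon
  push Not at hcon
  obtain ⟨u, huW, hu⟩ := hcon
  have hfu : f u = u := by
    by_contra h; exact hu (hf.2 u h).1
  -- another fixed point in W
  have hsub : univ.filter (fun x => f x ≠ x) ⊆ W.erase u := by
    intro x hx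
    simp only [mem_filter, mem_univ, true_and] at hx
    rw [mem_erase]
    exact ⟨by rintro rfl; exact hx hfu, (hf.2 x hx).2⟩
  have hne : univ.filter (fun x => f x ≠ x) ≠ W.erase u := by
    intro h
    have h1 := even_nonfixed f hf.1
    rw [h, card_erase_of_mem huW] at h1
    have h2 : 0 < W.card := card_pos.2 ⟨u, huW⟩
    rw [Nat.even_iff] at h1 hW
    omega
  obtain ⟨v, hv1, hv2⟩ := Finset.exists_of_ssubset (lt_of_le_of_ne hsub hne)
  rw [mem_erase] at hv1
  have hfv : f v = v := by
    by_contra h; exact hv2 (by simp [h])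
  have huv : u ≠ v := fun h => hv1.1 h.symm
  set A := W.filter (fun y => R u y) with hA
  set B := (W.filter (fun y => R v y)).image f with hB
  have hAn : ∀ a ∈ A, f a ≠ a := by
    intro a ha hfa
    rw [hA, mem_filter] at ha
    exact aug_one R hR W f hf hmax hfu hfa (by rintro rfl; exact hirr _ ha.2) huW ha.1 ha.2
  have hBn : ∀ a ∈ W.filter (fun y => R v y), f a ≠ a := by
    intro a ha hfa
    rw [mem_filter] at ha
    exact aug_one R hR W f hf hmax hfv hfa (by rintro rfl; exact hirr _ ha.2) hv1.2 ha.1 ha.2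
  have hAs : A ⊆ (W.erase u).erase v := by
    intro a ha
    have h1 := hAn a ha
    rw [mem_erase, mem_erase]
    exact ⟨by rintro rfl; exact h1 hfv, by rintro rfl; exact h1 hfu, (mem_filter.1 ha).1⟩
  have hBs : B ⊆ (W.erase u).erase v := by
    intro a ha
    obtain ⟨b, hb, rfl⟩ := mem_image.1 ha
    have h1 := hBn b hb
    have h2 : f (f b) ≠ f b := by rw [hf.1]; exact fun h => h1 h.symm
    rw [mem_erase, mem_erase]
    exact ⟨fun h => h2 (by rw [h, hfv]), fun h => h2 (by rw [h, hfu]), (hf.2 _ h2).2⟩
  have hBc : B.card = (W.filter (fun y => R v y)).card := by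
    rw [hB, card_image_of_injective]
    intro x y hxy
    have := congrArg f hxy
    rwa [hf.1, hf.1] at this
  have hdis : Disjoint A B := by
    rw [Finset.disjoint_left]
    intro a ha hb
    obtain ⟨b, hb', rfl⟩ := mem_image.1 hb
    have h1 := hAn _ ha
    refine aug_two R hR W f hf hmax (a := f b) hfu hfv huv h1 huW hv1.2 (mem_filter.1 ha).2 ?_
    rw [hf.1]; exact (mem_filter.1 hb').2
  have hc := card_le_card (union_subset hAs hBs)
  rw [card_union_of_disjoint hdis, hBc, hA] at hc
  have hc2 : ((W.erase u).erase v).card = W.card - 2 := by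
    rw [card_erase_of_mem (by rw [mem_erase]; exact hv1), card_erase_of_mem huW]
    omega
  have hd1 := hdeg u huW
  have hd2 := hdeg v hv1.2
  have hW0 : 2 ≤ W.card := by
    have : ({u, v} : Finset V) ⊆ W := by
      intro x hx
      rw [mem_insert, mem_singleton] at hx
      rcases hx with rfl | rfl
      · exact huW
      · exact hv1.2
    have := card_le_card this
    rwa [card_pair huv] at this
  omega

end

end H331HC
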