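import Pool.Agent.H331R3.HCCor

/-! Hadwiger's conjecture for lexicographic products. -/

set_option autoImplicit false

namespace H331HC

open Finset

/-- The lexicographic product `F[G]`: every vertex of `F` is replaced by a copy of `G`. -/
def lexProd {A V : Type*} (F : SimpleGraph A) (G : SimpleGraph V) : SimpleGraph (A × V) where
  Adj p q := F.Adj p.1 q.1 ∨ (p.1 = q.1 ∧ G.Adj p.2 q.2)
  symm := ⟨fun p q h => by
    rcases h with h | ⟨h1, h2⟩
    · exact Or.inl h.symm
    · exact Or.inr ⟨h1.symm, h2.symm⟩⟩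
  loopless := ⟨fun p h => by
    rcases h with h | ⟨_, h2⟩
    · exact F.irrefl h
    · exact G.irrefl h2⟩

variable {A V : Type*}

lemma lex_layer_connected (F : SimpleGraph A) (G : SimpleGraph V) (B : Set A)
    (hB : (F.induce B).Connected) (x : V) :
    ((lexProd F G).induce {p | p.1 ∈ B ∧ p.2 = x}).Connected := by
  let φ : F.induce B →g (lexProd F G).induce {p | p.1 ∈ B ∧ p.2 = x} :=
    { toFun := fun v => ⟨(v.1, x), v.2, rfl⟩
      map_rel' := fun {a b} h => Or.inl h }
  refine hB.map φ ?_
  rintro ⟨⟨v, y⟩, hv, rfl⟩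
  exact ⟨⟨v, hv⟩, rfl⟩

/-- The involution `g` is a maximal matching of the complement of `G`. -/
theorem lex_main [Fintype V] (F : SimpleGraph A) (G : SimpleGraph V) (h : ℕ) (h2 : 2 ≤ h)
    (hF : KMinor F h) (g : V → V) (hg : ∀ x, g (g x) = x)
    (hfix : ∀ x y, g x = x → g y = y → x ≠ y → G.Adj x y) [DecidableEq V] :
    KMinor (lexProd F G) (h * (univ.image (fun x => ({x, g x} : Finset V))).card) := by
  classical
  obtain ⟨B, hB1, hB2, hB3⟩ := hF
  have : NeZero h := ⟨by omega⟩
  set I := univ.image (fun x => ({x, g x} : Finset V)) with hI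
  have hr : ∀ c : {c // c ∈ I}, ∃ x, ({x, g x} : Finset V) = c.1 := by
    rintro ⟨c, hc⟩
    obtain ⟨x, -, hx⟩ := mem_image.1 hc
    exact ⟨x, hx⟩
  choose r hr using hr
  have key : ∀ a b, a ∈ ({b, g b} : Finset V) → ({b, g b} : Finset V) = {a, g a} := by
    intro a b hab
    rw [mem_insert, mem_singleton] at hab
    rcases hab with rfl | rfl
    · rfl
    · rw [hg]; exact Finset.pair_comm _ _
  have hrc : ∀ c d, r c ∈ ({r d, g (r d)} : Finset V) → c = d := by
    intro c d h
    apply Subtype.ext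
    rw [← hr c, ← hr d]
    exact (key _ _ h).symm
  have hgc : ∀ c d, g (r c) ∈ ({r d, g (r d)} : Finset V) → c = d := by
    intro c d h
    apply Subtype.ext
    rw [← hr c, ← hr d, key _ _ h, hg]
    exact Finset.pair_comm _ _
  have e1 : ∀ c d, r c = r d → c = d := fun c d h => hrc c d (by rw [h]; simp)
  have e2 : ∀ c d, r c = g (r d) → c = d := fun c d h => hrc c d (by rw [h]; simp)
  have e3 : ∀ c d, g (r c) = r d → c = d := fun c d h => hgc c d (by rw [h]; simp)
  have e4 : ∀ c d, g (r c) = g (r d) → c = d := fun c d h => hgc c d (by rw [h]; simp)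
  have hsucc : ∀ a : Fin h, a + 1 ≠ a := by
    intro a ha
    have : (1 : Fin h) = 0 := by simpa using ha
    have h3 : ((1 : Fin h) : ℕ) = 0 := by rw [this]; simp
    rw [Fin.val_one'] at h3
    rw [Nat.mod_eq_of_lt (by omega)] at h3
    exact one_ne_zero h3
  -- branch sets
  let P : Fin h × {c // c ∈ I} → Set (A × V) := fun q =>
    {p | (p.1 ∈ B q.1 ∧ p.2 = r q.2)} ∪
      (if g (r q.2) = r q.2 then {p | (p.1 ∈ B q.1 ∧ p.2 = r q.2)}
        else {p | p.1 ∈ B (q.1 + 1) ∧ p.2 = g (r q.2)})
  have hcard : Fintype.card (Fin h × {c // c ∈ I}) = h * I.card := by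
    rw [Fintype.card_prod, Fintype.card_fin, Fintype.card_coe]
  rw [← hcard]
  -- nonempty branch sets of F and edges
  have hne : ∀ a, (B a).Nonempty := by
    intro a
    obtain ⟨⟨x, hx⟩⟩ := (hB1 a).nonempty
    exact ⟨x, hx⟩
  refine KMinor.of_family _ P ?_ ?_ ?_
  · rintro ⟨a, c⟩
    by_cases hc : g (r c) = r c
    · have : P (a, c) = {p | (p.1 ∈ B a ∧ p.2 = r c)} := by
        simp only [P, hc, if_true, Set.union_self]
      rw [this]
      exact lex_layer_connected F G _ (hB1 a) _
    · have : P (a, c) = {p | (p.1 ∈ B a ∧ p.2 = r c)} ∪ {p | p.1 ∈ B (a + 1) ∧ p.2 = g (r c)} := by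
        simp only [P, hc, if_false]
      rw [this]
      obtain ⟨u, hu, v, hv, huv⟩ := hB3 a (a + 1) (hsucc a).symm
      exact SimpleGraph.connected_induce_union (v := (u, r c)) (w := (v, g (r c)))
        (lex_layer_connected F G _ (hB1 a) _).preconnected
        (lex_layer_connected F G _ (hB1 (a + 1)) _).preconnected
        ⟨hu, rfl⟩ ⟨hv, rfl⟩ (Or.inl huv)
  · rintro ⟨a, c⟩ ⟨b, d⟩ hne'
    rw [Set.disjoint_left]
    rintro ⟨v, x⟩ h1 h2
    have hB2' : ∀ a b, v ∈ B a → v ∈ B b → a = b := by
      intro a b ha hb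
      by_contra hab
      exact Set.disjoint_left.1 (hB2 a b hab) ha hb
    have hcd : c = d := by
      simp only [P] at h1 h2
      by_cases hc : g (r c) = r c <;> by_cases hd : g (r d) = r d <;>
        simp only [hc, hd, if_true, if_false, Set.mem_union, Set.mem_ofPred_eq, or_self] at h1 h2
      · exact e1 c d (h1.2.symm.trans h2.2)
      · rcases h2 with h2 | h2
        · exact e1 c d (h1.2.symm.trans h2.2)
        · exact e2 c d (h1.2.symm.trans h2.2)
      · rcases h1 with h1 | h1
        · exact e1 c d (h1.2.symm.trans h2.2)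
        · exact e3 c d (h1.2.symm.trans h2.2)
      · rcases h1 with h1 | h1 <;> rcases h2 with h2 | h2
        · exact e1 c d (h1.2.symm.trans h2.2)
        · exact e2 c d (h1.2.symm.trans h2.2)
        · exact e3 c d (h1.2.symm.trans h2.2)
        · exact e4 c d (h1.2.symm.trans h2.2)
    subst hcd
    have hab : a ≠ b := fun h => hne' (by rw [h])
    simp only [P] at h1 h2
    by_cases hc : g (r c) = r c
    · simp only [hc, if_true, Set.mem_union, Set.mem_ofPred_eq, or_self] at h1 h2
      exact hab (hB2' _ _ h1.1 h2.1)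
    · simp only [hc, if_false, Set.mem_union, Set.mem_ofPred_eq] at h1 h2
      rcases h1 with h1 | h1 <;> rcases h2 with h2 | h2
      · exact hab (hB2' _ _ h1.1 h2.1)
      · exact hc (h2.2.symm.trans h1.2)
      · exact hc (h1.2.symm.trans h2.2)
      · exact hab (by simpa using hB2' _ _ h1.1 h2.1)
  · rintro ⟨a, c⟩ ⟨b, d⟩ hne'
    -- membership helpers
    have m1 : ∀ a c v, v ∈ B a → (v, r c) ∈ P (a, c) := by
      intro a c v hv
      exact Or.inl ⟨hv, rfl⟩
    have m2 : ∀ a c v, g (r c) ≠ r c → v ∈ B (a + 1) → (v, g (r c)) ∈ P (a, c) := by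
      intro a c v hc hv
      refine Or.inr ?_
      simp only [hc, if_false]
      exact ⟨hv, rfl⟩
    by_cases hab : a = b
    · subst hab
      have hcd : c ≠ d := fun h => hne' (by rw [h])
      by_cases hc : g (r c) = r c
      · by_cases hd : g (r d) = r d
        · obtain ⟨v, hv⟩ := hne a
          exact ⟨(v, r c), m1 a c v hv, (v, r d), m1 a d v hv,
            Or.inr ⟨rfl, hfix _ _ hc hd (fun h => hcd (e1 c d h))⟩⟩
        · obtain ⟨u, hu, v, hv, huv⟩ := hB3 a (a + 1) (hsucc a).symm
          exact ⟨(u, r c), m1 a c u hu, (v, g (r d)), m2 a d v hd hv, Or.inl huv⟩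
      · obtain ⟨u, hu, v, hv, huv⟩ := hB3 (a + 1) a (hsucc a)
        exact ⟨(u, g (r c)), m2 a c u hc hu, (v, r d), m1 a d v hv, Or.inl huv⟩
    · obtain ⟨u, hu, v, hv, huv⟩ := hB3 a b hab
      exact ⟨(u, r c), m1 a c u hu, (v, r d), m1 b d v hv, Or.inl huv⟩

/-- colouring by the orbits of a matching of the complement -/
lemma orbit_colouring [Fintype V] [DecidableEq V] (G : SimpleGraph V) (g : V → V)
    (hadj : ∀ x, ¬ G.Adj x (g x)) :
    G.Colorable (univ.image (fun x => ({x, g x} : Finset V))).card := by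
  have C : G.Coloring {c // c ∈ univ.image (fun x => ({x, g x} : Finset V))} :=
    SimpleGraph.Coloring.mk (fun x => ⟨{x, g x}, mem_image_of_mem _ (mem_univ x)⟩) (by
      intro x y hxy heq
      have h1 : ({x, g x} : Finset V) = {y, g y} := congrArg Subtype.val heq
      have h2 : y ∈ ({x, g x} : Finset V) := by rw [h1]; simp
      rw [mem_insert, mem_singleton] at h2
      rcases h2 with h2 | h2
      · exact hxy.ne h2.symm
      · rw [h2] at hxy; exact hadj x hxy)
  have := C.colorable
  rwa [Fintype.card_coe] at this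

lemma lex_colorable (F : SimpleGraph A) (G : SimpleGraph V) (h k : ℕ)
    (hF : F.Colorable h) (hG : G.Colorable k) : (lexProd F G).Colorable (h * k) := by
  obtain ⟨C⟩ := hF
  obtain ⟨D⟩ := hG
  have E : (lexProd F G).Coloring (Fin h × Fin k) :=
    SimpleGraph.Coloring.mk (fun p => (C p.1, D p.2)) (by
      rintro ⟨a, x⟩ ⟨b, y⟩ hadj heq
      have h1 : C a = C b := congrArg Prod.fst heq
      have h2 : D x = D y := congrArg Prod.snd heq
      rcases hadj with h | ⟨_, h⟩
      · exact C.valid h h1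
      · exact D.valid h h2)
  have := E.colorable
  rwa [Fintype.card_prod, Fintype.card_fin, Fintype.card_fin] at this

end H331HC
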