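import Pool.Agent.H331R3.HCInv

/-! Hadwiger's conjecture for graphs with spread-out complements. -/

set_option autoImplicit false

namespace H331HC

open Finset

variable {V : Type*} [Fintype V]

/-- `x` and `y` are at distance at most two in the complement of `G`. -/
def Near (G : SimpleGraph V) (x y : V) : Prop :=
  x = y ∨ Gᶜ.Adj x y ∨ ∃ z, Gᶜ.Adj x z ∧ Gᶜ.Adj z y

omit [Fintype V] in
lemma Near.symm {G : SimpleGraph V} {x y : V} (h : Near G x y) : Near G y x := by
  rcases h with h | h | ⟨z, h1, h2⟩
  · exact Or.inl h.symm
  · exact Or.inr (Or.inl h.symm)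
  · exact Or.inr (Or.inr ⟨z, h2.symm, h1.symm⟩)

/-- Main construction. `g` is an involution (a matching of the complement, its fixed points are
the unmatched vertices). -/
theorem main_inv (G : SimpleGraph V) (g : V → V) (hg : ∀ x, g (g x) = x)
    (hadj : ∀ x, ¬ G.Adj x (g x))
    (hfix : ∀ x y, g x = x → g y = y → x ≠ y → G.Adj x y)
    (hball : ∀ x, g x ≠ x → 2 * {y | g y ≠ y ∧ Near G x y}.ncard ≤ {y | g y ≠ y}.ncard) :
    ∃ k, G.Colorable k ∧ KMinor G k ∧ 2 * k = Fintype.card V + {y | g y = y}.ncard := by
  classical
  set W : Finset V := univ.filter (fun y => g y ≠ y) with hW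
  have hWc : {y | g y ≠ y}.ncard = W.card := by
    rw [Set.ncard_eq_toFinset_card' {y | g y ≠ y}, Set.toFinset_ofPred]
  have hFc : {y | g y = y}.ncard = (univ.filter (fun y => g y = y)).card := by
    rw [Set.ncard_eq_toFinset_card' {y | g y = y}, Set.toFinset_ofPred]
  have hmW : ∀ x, x ∈ W ↔ g x ≠ x := by intro x; simp [hW]
  obtain ⟨f, hf1, hf2, hf3⟩ := dirac (fun x y => ¬ Near G x y)
    (fun x y h h' => h h'.symm) (fun x h => h (Or.inl rfl)) W (even_nonfixed g hg) (by
      intro x hx
      have h1 := hball x ((hmW x).1 hx)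
      have h2 : {y | g y ≠ y ∧ Near G x y}.ncard = (W.filter (fun y => Near G x y)).card := by
        rw [Set.ncard_eq_toFinset_card' {y | g y ≠ y ∧ Near G x y}, Set.toFinset_ofPred, hW,
          Finset.filter_filter]
      have h3 := Finset.card_filter_add_card_filter_not (s := W) (fun y => Near G x y)
      rw [h2, hWc] at h1
      omega)
  have hff : ∀ x, f x = x ↔ g x = x := by
    intro x
    constructor
    · intro h
      by_contra hx
      have := hf3 x ((hmW x).2 hx)
      exact this (Or.inl h.symm)
    · intro h
      exact hf2 x (by rw [hmW]; exact fun hc => hc h)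
  have hfadj : ∀ x, f x ≠ x → G.Adj x (f x) := by
    intro x hx
    have h1 : ¬ Near G x (f x) := hf3 x ((hmW x).2 (fun h => hx ((hff x).2 h)))
    by_contra h2
    exact h1 (Or.inr (Or.inl ((SimpleGraph.compl_adj G _ _).2 ⟨fun h => hx h.symm, h2⟩)))
  -- the two orbit sets have the same size
  have hcard : (univ.image (fun x => ({x, f x} : Finset V))).card =
      (univ.image (fun x => ({x, g x} : Finset V))).card := by
    have h1 := orb_card f hf1
    have h2 := orb_card g hg
    have h3 : univ.filter (fun x => f x = x) = univ.filter (fun x => g x = x) := by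
      ext x; simp [hff]
    rw [h3] at h1
    omega
  refine ⟨(univ.image (fun x => ({x, g x} : Finset V))).card, ?_, ?_, ?_⟩
  · -- colouring
    have C : G.Coloring {c // c ∈ univ.image (fun x => ({x, g x} : Finset V))} :=
      SimpleGraph.Coloring.mk (fun x => ⟨{x, g x}, mem_image_of_mem _ (mem_univ x)⟩) (by
        intro x y hxy heq
        have h1 : ({x, g x} : Finset V) = {y, g y} := congrArg Subtype.val heq
        have h2 : y ∈ ({x, g x} : Finset V) := by rw [h1]; simp
        rw [mem_insert, mem_singleton] at h2
        rcases h2 with h2 | h2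
        · exact hxy.ne h2.symm
        · rw [h2] at hxy; exact hadj x hxy)
    have := C.colorable
    rwa [Fintype.card_coe] at this
  · rw [← hcard]
    rw [← Fintype.card_coe (univ.image (fun x => ({x, f x} : Finset V)))]
    refine KMinor.of_family G (fun c => ((c.1 : Finset V) : Set V)) ?_ ?_ ?_
    · rintro ⟨c, hc⟩
      obtain ⟨x, -, rfl⟩ := mem_image.1 hc
      by_cases hx : f x = x
      · have : (((({x, f x} : Finset V)) : Set V)) = {x} := by rw [hx]; simp
        simp only
        rw [this]
        exact connected_single G x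
      · have : (((({x, f x} : Finset V)) : Set V)) = {x, f x} := by simp
        simp only
        rw [this]
        exact connected_pair G (hfadj x hx)
    · rintro ⟨c, hc⟩ ⟨d, hd⟩ hcd
      obtain ⟨x, -, rfl⟩ := mem_image.1 hc
      obtain ⟨y, -, rfl⟩ := mem_image.1 hd
      simp only
      rw [Finset.disjoint_coe, Finset.disjoint_left]
      intro z hz hz'
      apply hcd
      apply Subtype.ext
      simp only
      have key : ∀ a b, a ∈ ({b, f b} : Finset V) → ({b, f b} : Finset V) = {a, f a} := by
        intro a b hab
        rw [mem_insert, mem_singleton] at hab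
        rcases hab with rfl | rfl
        · rfl
        · rw [hf1]; exact Finset.pair_comm _ _
      rw [key z x hz, key z y hz']
    · rintro ⟨c, hc⟩ ⟨d, hd⟩ hcd
      obtain ⟨x, -, rfl⟩ := mem_image.1 hc
      obtain ⟨y, -, rfl⟩ := mem_image.1 hd
      have hcd' : ({x, f x} : Finset V) ≠ {y, f y} := fun h => hcd (Subtype.ext h)
      have hxy : x ≠ y := by rintro rfl; exact hcd' rfl
      have hfxy : f x ≠ y := by
        rintro rfl
        apply hcd'
        rw [hf1]; exact Finset.pair_comm _ _
      have hfyx : f y ≠ x := by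
        rintro rfl
        apply hcd'
        rw [hf1]; exact Finset.pair_comm _ _
      by_cases hx : f x = x
      · by_cases hy : f y = y
        · exact ⟨x, by simp, y, by simp, hfix x y ((hff x).1 hx) ((hff y).1 hy) hxy⟩
        · have hy' : g y ≠ y := fun h => hy ((hff y).2 h)
          have hn : ¬ Near G y (f y) := hf3 y ((hmW y).2 hy')
          by_contra hcon
          push Not at hcon
          have c1 : ¬ G.Adj x y := hcon x (by simp) y (by simp)
          have c2 : ¬ G.Adj x (f y) := hcon x (by simp) (f y) (by simp)
          exact hn (Or.inr (Or.inr ⟨x,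
            (SimpleGraph.compl_adj G _ _).2 ⟨hxy.symm, fun h => c1 h.symm⟩,
            (SimpleGraph.compl_adj G _ _).2 ⟨fun h => hfyx h.symm, c2⟩⟩))
      · have hx' : g x ≠ x := fun h => hx ((hff x).2 h)
        have hn : ¬ Near G x (f x) := hf3 x ((hmW x).2 hx')
        by_contra hcon
        push Not at hcon
        have c1 : ¬ G.Adj x y := hcon x (by simp) y (by simp)
        have c2 : ¬ G.Adj (f x) y := hcon (f x) (by simp) y (by simp)
        exact hn (Or.inr (Or.inr ⟨y,
            (SimpleGraph.compl_adj G _ _).2 ⟨hxy, c1⟩,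
            (SimpleGraph.compl_adj G _ _).2 ⟨fun h => hfxy h.symm, fun h => c2 h.symm⟩⟩))
  · have h2 := orb_card g hg
    rw [h2, hFc]

end H331HC
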