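import Mathlib

set_option autoImplicit false
set_option linter.unusedSectionVars false

namespace Pool.Agent.H331R3

open Finset

variable {V : Type} [Fintype V] [DecidableEq V] (G : SimpleGraph V)

/-- `S` is a union of components of the subgraph induced on `A`. -/
def Closed (A S : Finset V) : Prop := S ⊆ A ∧ ∀ x ∈ S, ∀ y ∈ A, G.Adj x y → y ∈ S

/-- `A` induces a connected subgraph. -/
def Conn (A : Finset V) : Prop := A.Nonempty ∧ ∀ S, Closed G A S → S.Nonempty → S = A

variable {G}

lemma Closed.sdiff {A S : Finset V} (h : Closed G A S) : Closed G A (A \ S) := by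
  refine ⟨sdiff_subset, ?_⟩
  intro x hx y hy hxy
  rw [mem_sdiff] at hx ⊢
  refine ⟨hy, fun hyS => hx.2 (h.2 y hyS x hx.1 hxy.symm)⟩

lemma Closed.trans {A B S : Finset V} (h : Closed G A B) (h' : Closed G B S) : Closed G A S := by
  refine ⟨h'.1.trans h.1, ?_⟩
  intro x hx y hy hxy
  exact h'.2 x hx y (h.2 x (h'.1 hx) y hy hxy) hxy

lemma Closed.inter {A S B : Finset V} (h : Closed G A S) (hB : B ⊆ A) : Closed G B (S ∩ B) := by
  refine ⟨inter_subset_right, ?_⟩
  intro x hx y hy hxy
  rw [mem_inter] at hx ⊢
  exact ⟨h.2 x hx.1 y (hB hy) hxy, hy⟩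

lemma Closed.refl (A : Finset V) : Closed G A A := ⟨Subset.rfl, fun _ _ _ hy _ => hy⟩

lemma Conn.induce {A : Finset V} (h : Conn G A) : (G.induce (A : Set V)).Connected := by
  classical
  obtain ⟨⟨a, ha⟩, hA⟩ := h
  rw [SimpleGraph.connected_iff_exists_forall_reachable]
  refine ⟨⟨a, ha⟩, ?_⟩
  let S := A.filter (fun x => ∃ hx : x ∈ (A : Set V), (G.induce (A : Set V)).Reachable ⟨a, ha⟩ ⟨x, hx⟩)
  have hS : S = A := by
    apply hA
    · refine ⟨Finset.filter_subset _ _, ?_⟩
      intro x hx y hy hxy
      simp only [S, Finset.mem_filter] at hx ⊢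
      obtain ⟨hxA, hx', hr⟩ := hx
      refine ⟨hy, hy, hr.trans ?_⟩
      apply SimpleGraph.Adj.reachable
      simpa using hxy
    · exact ⟨a, by simp [S, ha]⟩
  rintro ⟨x, hx⟩
  have : x ∈ S := by rw [hS]; exact hx
  simp only [S, Finset.mem_filter] at this
  obtain ⟨_, _, h⟩ := this
  exact h

/-- propagation along a connected set -/
lemma Conn.prop {A : Finset V} (h : Conn G A) (P : V → Prop) {a : V} (ha : a ∈ A) (hPa : P a)
    (hP : ∀ x ∈ A, P x → ∀ y ∈ A, G.Adj x y → P y) : ∀ x ∈ A, P x := by
  classical
  have hS : A.filter P = A := by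
    apply h.2
    · refine ⟨Finset.filter_subset _ _, ?_⟩
      intro x hx y hy hxy
      simp only [Finset.mem_filter] at hx ⊢
      exact ⟨hy, hP x hx.1 hx.2 y hy hxy⟩
    · exact ⟨a, by simp [ha, hPa]⟩
  intro x hx
  rw [← hS] at hx
  exact (Finset.mem_filter.1 hx).2

lemma conn_singleton (v : V) : Conn G {v} := by
  refine ⟨singleton_nonempty v, ?_⟩
  intro S hS hne
  rcases Finset.subset_singleton_iff.1 hS.1 with h | h
  · rw [h] at hne
    exact absurd hne (by simp)
  · exact h

lemma Conn.insert {A : Finset V} (h : Conn G A) {a v : V} (ha : a ∈ A) (hav : G.Adj a v) :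
    Conn G (insert v A) := by
  refine ⟨insert_nonempty _ _, ?_⟩
  intro S hS hne
  have h1 : Closed G A (S ∩ A) := hS.inter (subset_insert _ _)
  by_cases hc : (S ∩ A).Nonempty
  · have h2 := h.2 _ h1 hc
    have h3 : A ⊆ S := by
      rw [← h2]; exact inter_subset_left
    have h4 : v ∈ S := hS.2 a (h3 ha) v (mem_insert_self _ _) hav
    apply Subset.antisymm hS.1
    intro x hx
    rw [mem_insert] at hx
    rcases hx with rfl | hx
    · exact h4
    · exact h3 hx
  · rw [not_nonempty_iff_eq_empty] at hc
    obtain ⟨x, hx⟩ := hne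
    have hxv : x = v := by
      have := hS.1 hx
      rw [mem_insert] at this
      rcases this with h' | h'
      · exact h'
      · exfalso
        have : x ∈ S ∩ A := mem_inter.2 ⟨hx, h'⟩
        rw [hc] at this
        simp at this
    subst hxv
    have : a ∈ S := hS.2 x hx a (mem_insert_of_mem ha) hav.symm
    have : a ∈ S ∩ A := mem_inter.2 ⟨this, ha⟩
    rw [hc] at this
    simp at this

variable (G)

/-- outer neighbourhood -/
noncomputable def nb (A : Finset V) : Finset V := by
  classical exact Finset.univ.filter (fun x => x ∉ A ∧ ∃ a ∈ A, G.Adj a x)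

/-- degree -/
noncomputable def dg (v : V) : ℕ := by
  classical exact (Finset.univ.filter (fun y => G.Adj v y)).card

/-- cost of a vertex set -/
noncomputable def cost (X : Finset V) : ℕ := ∑ x ∈ X, (dg G x + 1)

variable {G}

lemma mem_nb {A : Finset V} {x : V} : x ∈ nb G A ↔ x ∉ A ∧ ∃ a ∈ A, G.Adj a x := by
  classical
  simp [nb]

lemma cost_mono {X Y : Finset V} (h : X ⊆ Y) : cost G X ≤ cost G Y :=
  Finset.sum_le_sum_of_subset h

lemma card_le_cost (X : Finset V) : X.card ≤ cost G X := by
  rw [cost, Finset.card_eq_sum_ones]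
  apply Finset.sum_le_sum
  intro i _
  omega

lemma cost_union (X Y : Finset V) : cost G (X ∪ Y) ≤ cost G X + cost G Y := by
  unfold cost
  have := Finset.sum_union_inter (s₁ := X) (s₂ := Y) (f := fun x => dg G x + 1)
  omega

lemma cost_le_card_mul (X : Finset V) (D : ℕ) (hD : ∀ v, dg G v + 1 ≤ D) :
    cost G X ≤ X.card * D := by
  unfold cost
  have := Finset.sum_le_card_nsmul X (fun x => dg G x + 1) D (fun x _ => hD x)
  simpa using this

/-- Cut condition of path-pairable graphs. -/
lemma cut (hpp : ∀ (k : ℕ) (s r : Fin k → V), Function.Injective (Sum.elim s r) →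
          ∃ p : (i : Fin k) → G.Walk (s i) (r i),
            (∀ i, (p i).IsPath) ∧
            ∀ i j, i ≠ j → ∀ e ∈ (p i).edges, e ∉ (p j).edges) (A : Finset V) :
    min A.card (Fintype.card V - A.card) ≤ cost G (nb G A) := by
  classical
  set m := min A.card (Fintype.card V - A.card) with hm
  have h1 : m ≤ A.card := min_le_left _ _
  have h2 : m ≤ (Aᶜ).card := by
    rw [card_compl]
    exact min_le_right _ _
  let s : Fin m → V := fun i => (A.equivFin.symm (Fin.castLE h1 i)).val
  let r : Fin m → V := fun i => ((Aᶜ).equivFin.symm (Fin.castLE h2 i)).val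
  have hs : ∀ i, s i ∈ A := fun i => (A.equivFin.symm (Fin.castLE h1 i)).2
  have hr : ∀ i, r i ∉ A := fun i => by
    have := ((Aᶜ).equivFin.symm (Fin.castLE h2 i)).2
    rwa [mem_compl] at this
  have hinj : Function.Injective (Sum.elim s r) := by
    rintro (i | i) (j | j) hij
    · simp only [Sum.elim_inl, s] at hij
      have := A.equivFin.symm.injective (Subtype.ext hij)
      rw [Fin.castLE_inj] at this
      rw [this]
    · simp only [Sum.elim_inl, Sum.elim_inr] at hij
      exact absurd (hs i) (by rw [hij]; exact hr j)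
    · simp only [Sum.elim_inl, Sum.elim_inr] at hij
      exact absurd (hs j) (by rw [← hij]; exact hr i)
    · simp only [Sum.elim_inr, r] at hij
      have := (Aᶜ).equivFin.symm.injective (Subtype.ext hij)
      rw [Fin.castLE_inj] at this
      rw [this]
  obtain ⟨p, _, hp⟩ := hpp m s r hinj
  have hd : ∀ i, ∃ d : G.Dart, d ∈ (p i).darts ∧ d.fst ∈ (A : Set V) ∧ d.snd ∉ (A : Set V) :=
    fun i => (p i).exists_boundary_dart (A : Set V) (by exact_mod_cast hs i) (by exact_mod_cast hr i)
  choose d hd1 hd2 hd3 using hd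
  let F : Finset (Σ _ : V, V) := (nb G A).sigma (fun x => Finset.univ.filter (fun y => G.Adj x y))
  have hF : F.card ≤ cost G (nb G A) := by
    rw [Finset.card_sigma, cost]
    apply Finset.sum_le_sum
    intro x _
    rw [dg]
    have : (Finset.univ.filter (fun y => G.Adj x y)).card = (Finset.univ.filter (fun y => G.Adj x y)).card := rfl
    convert Nat.le_succ _
  have hmF : (Finset.univ : Finset (Fin m)).card ≤ F.card := by
    apply Finset.card_le_card_of_injOn (fun i => (⟨(d i).snd, (d i).fst⟩ : Σ _ : V, V))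
    · intro i _
      simp only [F, Finset.coe_sigma, Set.mem_sigma_iff, Finset.mem_coe, mem_nb,
        Finset.mem_filter, Finset.mem_univ, true_and]
      refine ⟨⟨?_, (d i).fst, ?_, (d i).adj⟩, (d i).adj.symm⟩
      · exact_mod_cast hd3 i
      · exact_mod_cast hd2 i
    · intro i _ j _ hij
      by_contra hne
      simp only [Sigma.mk.injEq, heq_eq_eq] at hij
      have he : (d i).edge = (d j).edge := by
        have : d i = d j := by
          apply SimpleGraph.Dart.ext
          exact Prod.ext hij.2 hij.1
        rw [this]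
      have h3 : (d i).edge ∈ (p i).edges := List.mem_map_of_mem (hd1 i)
      have h4 : (d i).edge ∈ (p j).edges := by
        rw [he]; exact List.mem_map_of_mem (hd1 j)
      exact hp i j hne _ h3 h4
  rw [Finset.card_univ, Fintype.card_fin] at hmF
  exact hmF.trans hF

/-- existence of a connected giant -/
lemma giant (W : Finset V) (h1 : Fintype.card V < 2 * W.card)
    (h2 : ∀ A, Closed G W A → 2 * A.card ≤ Fintype.card V → 4 * A.card < Fintype.card V) :
    ∃ A, Closed G W A ∧ Fintype.card V < 2 * A.card ∧ Conn G A := by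
  classical
  let F := W.powerset.filter (fun A => Closed G W A ∧ Fintype.card V < 2 * A.card)
  have hF : F.Nonempty := ⟨W, by simp [F, Closed.refl, h1]⟩
  obtain ⟨A, hA, hmin⟩ := F.exists_min_image card hF
  simp only [F, mem_filter, mem_powerset] at hA hmin
  refine ⟨A, hA.2.1, hA.2.2, ?_, ?_⟩
  · rw [← card_pos]
    omega
  · intro S hS hne
    by_contra hSA
    have hS' := hS.sdiff
    have c1 : Closed G W S := hA.2.1.trans hS
    have c2 : Closed G W (A \ S) := hA.2.1.trans hS'
    have hcard : S.card + (A \ S).card = A.card := by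
      rw [add_comm]; exact card_sdiff_add_card_eq_card hS.1
    have hSpos : 0 < S.card := card_pos.2 hne
    have hSpos' : 0 < (A \ S).card := by
      rw [card_pos, sdiff_nonempty]
      intro h
      exact hSA (Subset.antisymm hS.1 h)
    have b1 : 2 * S.card ≤ Fintype.card V := by
      by_contra hc
      have := hmin S ⟨c1.1, c1, by omega⟩
      omega
    have b2 : 2 * (A \ S).card ≤ Fintype.card V := by
      by_contra hc
      have := hmin (A \ S) ⟨c2.1, c2, by omega⟩
      omega
    have := h2 S c1 b1
    have := h2 _ c2 b2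
    omega

end Pool.Agent.H331R3
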