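import Pool.Agent.H331R3.PPBasic

set_option autoImplicit false
set_option linter.unusedSectionVars false

namespace Pool.Agent.H331R3

open Finset

variable {V : Type} [Fintype V] [DecidableEq V]

/-- number of neighbours of `w` in `X` -/
noncomputable def nin (G : SimpleGraph V) (w : V) (X : Finset V) : ℕ := by
  classical exact (X.filter (fun y => G.Adj w y)).card

/-- number of ordered adjacent pairs inside `W` -/
noncomputable def DD (G : SimpleGraph V) (W : Finset V) : ℕ := ∑ w ∈ W, nin G w W

/-- neighbourhood of `U` inside `W` -/
noncomputable def nbin (G : SimpleGraph V) (W U : Finset V) : Finset V := by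
  classical exact (W \ U).filter (fun x => ∃ a ∈ U, G.Adj a x)

variable {G : SimpleGraph V}

lemma nin_insert {w x : V} {X : Finset V} (hx : x ∉ X) :
    nin G w (insert x X) = nin G w X + (by classical exact if G.Adj w x then 1 else 0) := by
  classical
  unfold nin
  rw [filter_insert]
  split_ifs with h
  · rw [card_insert_of_notMem (by simp [hx])]
  · rfl

lemma nin_self_insert {w : V} {X : Finset V} : nin G w (insert w X) = nin G w X := by
  classical
  by_cases h : w ∈ X
  · rw [insert_eq_self.2 h]
  · rw [nin_insert h]
    simp

lemma DD_insert {x : V} {X : Finset V} (hx : x ∉ X) :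
    DD G (insert x X) = DD G X + 2 * nin G x X := by
  classical
  unfold DD
  rw [sum_insert hx, nin_self_insert]
  have h1 : ∀ w ∈ X, nin G w (insert x X) = nin G w X + (if G.Adj w x then 1 else 0) :=
    fun w _ => nin_insert hx
  rw [sum_congr rfl h1, sum_add_distrib]
  have h2 : ∑ w ∈ X, (if G.Adj w x then 1 else 0) = nin G x X := by
    rw [nin, ← Finset.sum_filter, ← Finset.card_eq_sum_ones]
    congr 1
    ext w
    simp [G.adj_comm]
  rw [h2]
  ring

lemma mem_nbin {W U : Finset V} {x : V} : x ∈ nbin G W U ↔ (x ∈ W ∧ x ∉ U) ∧ ∃ a ∈ U, G.Adj a x := by
  classical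
  simp [nbin]

/-- A `K_t` minor model inside `W`. -/
def KM (G : SimpleGraph V) (t : ℕ) (W : Finset V) : Prop :=
  ∃ f : Fin t → Finset V, (∀ i, f i ⊆ W) ∧ (∀ i, Conn G (f i)) ∧
    (∀ i j, i ≠ j → Disjoint (f i) (f j)) ∧
    (∀ i j, i ≠ j → ∃ u ∈ f i, ∃ v ∈ f j, G.Adj u v)

lemma KM.mono {t : ℕ} {W W' : Finset V} (h : KM G t W) (hW : W ⊆ W') : KM G t W' := by
  obtain ⟨f, h1, h2, h3, h4⟩ := h
  exact ⟨f, fun i => (h1 i).trans hW, h2, h3, h4⟩

lemma KM.succ {t : ℕ} {W U : Finset V} (hU : Conn G U) (hUW : U ⊆ W)
    (h : KM G t (nbin G W U)) : KM G (t + 1) W := by
  classical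
  obtain ⟨f, h1, h2, h3, h4⟩ := h
  refine ⟨Fin.cons U f, ?_, ?_, ?_, ?_⟩
  · intro i
    refine Fin.cases ?_ (fun i => ?_) i
    · simpa using hUW
    · intro x hx
      rw [Fin.cons_succ] at hx
      exact (mem_nbin.1 (h1 i hx)).1.1
  · intro i
    refine Fin.cases ?_ (fun i => ?_) i
    · simpa using hU
    · simpa using h2 i
  · have hd : ∀ i, Disjoint U (f i) := by
      intro i
      rw [Finset.disjoint_left]
      intro x hx hx'
      exact (mem_nbin.1 (h1 i hx')).1.2 hx
    intro i j
    refine Fin.cases ?_ (fun i => ?_) i
    · refine Fin.cases ?_ (fun j => ?_) j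
      · intro h
        exact absurd rfl h
      · intro _
        simpa using hd j
    · refine Fin.cases ?_ (fun j => ?_) j
      · intro _
        simpa using (hd i).symm
      · intro hij
        simpa using h3 i j (fun h => hij (by rw [h]))
  · have hd : ∀ i, ∃ u ∈ U, ∃ v ∈ f i, G.Adj u v := by
      intro i
      obtain ⟨x, hx⟩ := (h2 i).1
      obtain ⟨_, a, ha, hax⟩ := mem_nbin.1 (h1 i hx)
      exact ⟨a, ha, x, hx, hax⟩
    intro i j
    refine Fin.cases ?_ (fun i => ?_) i
    · refine Fin.cases ?_ (fun j => ?_) j
      · intro h
        exact absurd rfl h
      · intro _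
        simpa using hd j
    · refine Fin.cases ?_ (fun j => ?_) j
      · intro _
        obtain ⟨u, hu, v, hv, huv⟩ := hd i
        simp only [Fin.cons_succ, Fin.cons_zero]
        exact ⟨v, hv, u, hu, huv.symm⟩
      · intro hij
        simpa using h4 i j (fun h => hij (by rw [h]))

lemma nin_le_add {w : V} {X N : Finset V} :
    nin G w X ≤ nin G w (X ∩ N) + nin G w (X \ N) := by
  classical
  unfold nin
  rw [← card_union_of_disjoint]
  · apply card_le_card
    intro y hy
    simp only [mem_filter, mem_union, mem_inter, mem_sdiff] at hy ⊢
    tauto
  · rw [Finset.disjoint_left]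
    intro y hy hy'
    simp only [mem_filter, mem_inter, mem_sdiff] at hy hy'
    tauto

lemma mader (G : SimpleGraph V) (t : ℕ) : ∀ W : Finset V, W.Nonempty → 2 ^ t * W.card ≤ DD G W →
    KM G t W := by
  classical
  induction t with
  | zero =>
    intro W _ _
    exact ⟨fun i => i.elim0, fun i => i.elim0, fun i => i.elim0, fun i => i.elim0,
      fun i => i.elim0⟩
  | succ t iht =>
    intro W
    induction W using Finset.strongInduction with
    | H W ihW =>
      intro hne hD
      set c := 2 ^ (t + 1) with hc
      have hc2 : c = 2 * 2 ^ t := by rw [hc, pow_succ]; ring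
      -- good sets
      let good : Finset (Finset V) := W.powerset.filter (fun U => Conn G U ∧
        c * (W.card - U.card + 1) ≤ DD G (W \ U) + 2 * (nbin G W U).card)
      have hgood : good.Nonempty := by
        obtain ⟨v, hv⟩ := hne
        refine ⟨{v}, ?_⟩
        simp only [good, mem_filter, mem_powerset, singleton_subset_iff]
        refine ⟨hv, conn_singleton v, ?_⟩
        have h1 : W = insert v (W \ {v}) := by
          ext x
          simp only [mem_insert, mem_sdiff, mem_singleton]
          constructor
          · intro hx
            by_cases hxv : x = v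
            · exact Or.inl hxv
            · exact Or.inr ⟨hx, hxv⟩
          · rintro (rfl | hx)
            · exact hv
            · exact hx.1
        have h2 : DD G W = DD G (W \ {v}) + 2 * nin G v (W \ {v}) := by
          conv_lhs => rw [h1]
          exact DD_insert (by simp)
        have h3 : (nbin G W {v}).card = nin G v (W \ {v}) := by
          unfold nbin nin
          congr 1
          ext x
          simp
        have h4 : W.card - ({v} : Finset V).card + 1 = W.card := by
          have := card_pos.2 ⟨v, hv⟩
          rw [card_singleton]
          omega
        rw [h4, h3, ← h2]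
        exact hD
      obtain ⟨U, hU, hmax⟩ := good.exists_max_image card hgood
      simp only [good, mem_filter, mem_powerset] at hU hmax
      obtain ⟨hUW, hUc, hUD⟩ := hU
      set N := nbin G W U with hN
      have hUcard : U.card ≤ W.card := card_le_card hUW
      have hWU : (W \ U).card = W.card - U.card := card_sdiff_of_subset hUW
      by_cases hNe : N.Nonempty
      · -- main case
        apply KM.succ hUc hUW
        rw [← hN]
        apply iht N hNe
        have hdeg : ∀ w ∈ N, 2 ^ t ≤ nin G w N := by
          intro w hw
          obtain ⟨⟨hwW, hwU⟩, a, haU, haw⟩ := mem_nbin.1 hw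
          have hconn : Conn G (insert w U) := hUc.insert haU haw
          have hsub : insert w U ⊆ W := insert_subset hwW hUW
          have hcardins : (insert w U).card = U.card + 1 := card_insert_of_notMem hwU
          have hlt : ¬ (c * (W.card - (insert w U).card + 1) ≤
              DD G (W \ insert w U) + 2 * (nbin G W (insert w U)).card) := by
            intro hcon
            have := hmax (insert w U) ⟨hsub, hconn, hcon⟩
            omega
          push Not at hlt
          rw [hcardins] at hlt
          have hle : U.card + 1 ≤ W.card := by
            rw [← hcardins]; exact card_le_card hsub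
          -- edges
          have e1 : W \ U = insert w (W \ insert w U) := by
            ext x
            simp only [mem_insert, mem_sdiff, not_or]
            constructor
            · intro hx
              by_cases hxv : x = w
              · exact Or.inl hxv
              · exact Or.inr ⟨hx.1, hxv, hx.2⟩
            · rintro (rfl | hx)
              · exact ⟨hwW, hwU⟩
              · exact ⟨hx.1, hx.2.2⟩
          have e2 : DD G (W \ U) = DD G (W \ insert w U) + 2 * nin G w (W \ insert w U) := by
            conv_lhs => rw [e1]
            exact DD_insert (by simp)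
          -- neighbourhood
          have e3 : N.card ≤ (nbin G W (insert w U)).card + 1 - nin G w ((W \ insert w U) \ N) := by
            have hdisj : Disjoint (N.erase w) (((W \ insert w U) \ N).filter (fun y => G.Adj w y)) := by
              rw [Finset.disjoint_left]
              intro x hx hx'
              simp only [mem_erase, mem_filter, mem_sdiff] at hx hx'
              exact hx'.1.2 hx.2
            have hsub2 : (N.erase w) ∪ (((W \ insert w U) \ N).filter (fun y => G.Adj w y)) ⊆
                nbin G W (insert w U) := by
              intro x hx
              rw [mem_nbin]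
              simp only [mem_union, mem_erase, mem_filter, mem_sdiff, mem_insert, not_or] at hx ⊢
              rcases hx with ⟨hxw, hx⟩ | ⟨⟨⟨hxW, hxw, hxU⟩, _⟩, hwx⟩
              · obtain ⟨⟨h1, h2⟩, b, hb, hbx⟩ := mem_nbin.1 hx
                exact ⟨⟨h1, hxw, h2⟩, b, Or.inr hb, hbx⟩
              · exact ⟨⟨hxW, hxw, hxU⟩, w, Or.inl rfl, hwx⟩
            have hcard := card_le_card hsub2
            rw [card_union_of_disjoint hdisj, card_erase_of_mem hw] at hcard
            have hpos : 0 < N.card := card_pos.2 ⟨w, hw⟩
            have : (((W \ insert w U) \ N).filter (fun y => G.Adj w y)).card =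
              nin G w ((W \ insert w U) \ N) := by
              unfold nin
              congr 1
            omega
          have e4 := nin_le_add (G := G) (w := w) (X := W \ insert w U) (N := N)
          have e5 : nin G w ((W \ insert w U) ∩ N) ≤ nin G w N := by
            unfold nin
            exact card_le_card (filter_subset_filter _ inter_subset_right)
          have e6 : nin G w ((W \ insert w U) \ N) ≤ (nbin G W (insert w U)).card + 1 := by
            have hsub3 : (((W \ insert w U) \ N).filter (fun y => G.Adj w y)) ⊆
                nbin G W (insert w U) := by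
              intro x hx
              rw [mem_nbin]
              simp only [mem_filter, mem_sdiff, mem_insert, not_or] at hx ⊢
              obtain ⟨⟨⟨hxW, hxw, hxU⟩, _⟩, hwx⟩ := hx
              exact ⟨⟨hxW, hxw, hxU⟩, w, Or.inl rfl, hwx⟩
            have hcard := card_le_card hsub3
            have : (((W \ insert w U) \ N).filter (fun y => G.Adj w y)).card =
              nin G w ((W \ insert w U) \ N) := by
              unfold nin
              congr 1
            omega
          have e7 : c * (W.card - U.card + 1) = c * (W.card - (U.card + 1) + 1) + c := by
            have : W.card - U.card + 1 = (W.card - (U.card + 1) + 1) + 1 := by omega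
            rw [this]
            ring
          omega
        have : ∑ w ∈ N, 2 ^ t ≤ DD G N := Finset.sum_le_sum hdeg
        rw [sum_const, smul_eq_mul] at this
        rw [mul_comm]
        exact this
      · -- no neighbours: pass to a smaller set
        rw [not_nonempty_iff_eq_empty] at hNe
        rw [hNe, card_empty, mul_zero, add_zero] at hUD
        have hUpos : 0 < U.card := card_pos.2 hUc.1
        have hWUne : (W \ U).Nonempty := by
          by_contra hcon
          rw [not_nonempty_iff_eq_empty] at hcon
          rw [hcon] at hUD
          simp only [DD, sum_empty] at hUD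
          have hcpos : 0 < c := by positivity
          have : 0 < c * (W.card - U.card + 1) := by positivity
          omega
        have hlt : W \ U ⊂ W := by
          rw [Finset.ssubset_iff_subset_ne]
          refine ⟨sdiff_subset, ?_⟩
          intro h
          rw [h] at hWU
          have := card_pos.2 hne
          omega
        have := ihW (W \ U) hlt hWUne (by
          rw [hWU]
          calc c * (W.card - U.card) ≤ c * (W.card - U.card + 1) := Nat.mul_le_mul_left _ (by omega)
            _ ≤ _ := hUD)
        exact this.mono sdiff_subset

end Pool.Agent.H331R3
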