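import Pool.Agent.H331R3.PPLayer
import Pool.Agent.H331R3.PPMader

set_option autoImplicit false
set_option linter.unusedSectionVars false

namespace Pool.Agent.H331R3

open Finset

variable {V : Type} [Fintype V] [DecidableEq V] {G : SimpleGraph V}

/-- The states of the descent: `B` a giant connected set, `F` a family of disjoint, mutually
adjacent connected sets covering the outer neighbourhood of `B` cheaply. -/
structure PSt (G : SimpleGraph V) (t : ℕ) (B : Finset V) (F : Finset (Finset V)) : Prop where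
  connB : Conn G B
  big : Fintype.card V < 2 * B.card
  conn : ∀ C ∈ F, Conn G C
  disjB : ∀ C ∈ F, Disjoint C B
  disj : ∀ C ∈ F, ∀ C' ∈ F, C ≠ C' → Disjoint C C'
  adj : ∀ C ∈ F, ∀ C' ∈ F, C ≠ C' → ∃ x ∈ C, ∃ y ∈ C', G.Adj x y
  cover : ∀ x ∈ nb G B, ∃ C ∈ F, x ∈ C
  small : ∀ C ∈ F, 8 * t * cost G (nb G B ∩ C) ≤ Fintype.card V

/-- States in which every member of the family is adjacent to `B`. -/
structure St (G : SimpleGraph V) (t : ℕ) (B : Finset V) (F : Finset (Finset V)) : Prop
    extends PSt G t B F where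
  adjB : ∀ C ∈ F, ∃ x ∈ C, ∃ y ∈ B, G.Adj x y

lemma PSt.clean {t : ℕ} {B : Finset V} {F : Finset (Finset V)} (h : PSt G t B F) :
    ∃ F', St G t B F' := by
  classical
  refine ⟨F.filter (fun C => ∃ x ∈ C, ∃ y ∈ B, G.Adj x y), ⟨⟨h.connB, h.big, ?_, ?_, ?_, ?_, ?_, ?_⟩, ?_⟩⟩
  · intro C hC
    exact h.conn C (mem_filter.1 hC).1
  · intro C hC
    exact h.disjB C (mem_filter.1 hC).1
  · intro C hC C' hC' hne
    exact h.disj C (mem_filter.1 hC).1 C' (mem_filter.1 hC').1 hne
  · intro C hC C' hC' hne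
    exact h.adj C (mem_filter.1 hC).1 C' (mem_filter.1 hC').1 hne
  · intro x hx
    obtain ⟨C, hC, hxC⟩ := h.cover x hx
    obtain ⟨_, b, hb, hbx⟩ := mem_nb.1 hx
    exact ⟨C, mem_filter.2 ⟨hC, x, hxC, b, hb, hbx.symm⟩, hxC⟩
  · intro C hC
    exact h.small C (mem_filter.1 hC).1
  · intro C hC
    exact (mem_filter.1 hC).2

lemma card_lt_of_noMinor {t : ℕ} {F : Finset (Finset V)}
    (hnm : ¬ KM G t univ) (conn : ∀ C ∈ F, Conn G C)
    (disj : ∀ C ∈ F, ∀ C' ∈ F, C ≠ C' → Disjoint C C')
    (adj : ∀ C ∈ F, ∀ C' ∈ F, C ≠ C' → ∃ x ∈ C, ∃ y ∈ C', G.Adj x y) : F.card < t := by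
  by_contra hcon
  push Not at hcon
  apply hnm
  let e : Fin t → Finset V := fun i => (F.equivFin.symm (Fin.castLE hcon i)).val
  have he : ∀ i, e i ∈ F := fun i => (F.equivFin.symm (Fin.castLE hcon i)).2
  have hinj : Function.Injective e := by
    intro i j hij
    have := F.equivFin.symm.injective (Subtype.ext hij)
    rwa [Fin.castLE_inj] at this
  refine ⟨e, fun i => subset_univ _, fun i => conn _ (he i), ?_, ?_⟩
  · intro i j hij
    exact disj _ (he i) _ (he j) (fun h => hij (hinj h))
  · intro i j hij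
    exact adj _ (he i) _ (he j) (fun h => hij (hinj h))

lemma cost_biUnion_le (X : Finset V) (F : Finset (Finset V)) (m : ℕ)
    (hX : ∀ x ∈ X, ∃ C ∈ F, x ∈ C) (hF : ∀ C ∈ F, cost G (X ∩ C) ≤ m) :
    cost G X ≤ F.card * m := by
  classical
  have h1 : X ⊆ F.biUnion (fun C => X ∩ C) := by
    intro x hx
    obtain ⟨C, hC, hxC⟩ := hX x hx
    exact mem_biUnion.2 ⟨C, hC, mem_inter.2 ⟨hx, hxC⟩⟩
  have h2 : cost G (F.biUnion (fun C => X ∩ C)) ≤ ∑ C ∈ F, cost G (X ∩ C) := by
    clear hX hF h1
    induction F using Finset.induction_on with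
    | empty => simp [cost]
    | insert a s ha ih =>
      rw [biUnion_insert, sum_insert ha]
      exact (cost_union _ _).trans (Nat.add_le_add_left ih _)
  calc cost G X ≤ _ := cost_mono h1
    _ ≤ _ := h2
    _ ≤ ∑ C ∈ F, m := Finset.sum_le_sum hF
    _ = F.card * m := by rw [sum_const, smul_eq_mul]

lemma nb_closed_subset {B X A : Finset V} (hA : Closed G (B \ X) A) :
    nb G A ⊆ nb G B ∪ (X ∩ B) := by
  intro x hx
  obtain ⟨hxA, a, ha, hax⟩ := mem_nb.1 hx
  rw [mem_union, mem_nb, mem_inter]
  have haB := mem_sdiff.1 (hA.1 ha)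
  by_cases hxB : x ∈ B
  · by_cases hxX : x ∈ X
    · exact Or.inr ⟨hxX, hxB⟩
    · exact absurd (hA.2 a ha x (mem_sdiff.2 ⟨hxB, hxX⟩) hax) hxA
  · exact Or.inl ⟨hxB, a, haB.1, hax⟩

lemma giant_step {t : ℕ} {B X : Finset V} {F : Finset (Finset V)} (ht : F.card < t)
    (hcut : ∀ A : Finset V, min A.card (Fintype.card V - A.card) ≤ cost G (nb G A))
    (h : PSt G t B F) (hX : X ⊆ B) (hXc : 8 * t * cost G X ≤ Fintype.card V) :
    ∃ B1, Closed G (B \ X) B1 ∧ Fintype.card V < 2 * B1.card ∧ Conn G B1 := by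
  set n := Fintype.card V with hn
  have hBn : B.card ≤ n := card_le_univ B
  have hbig := h.big
  have hnpos : 0 < n := by
    have := card_pos.2 h.connB.1
    omega
  set m := n / (8 * t) with hm
  have h8t : 0 < 8 * t := by omega
  have hmle : 8 * t * m ≤ n := Nat.mul_div_le n (8 * t)
  have hle : ∀ c, 8 * t * c ≤ n → c ≤ m := by
    intro c hc
    rw [hm, Nat.le_div_iff_mul_le h8t]
    rw [mul_comm]
    exact hc
  have hcB : cost G (nb G B) ≤ F.card * m :=
    cost_biUnion_le _ F m h.cover (fun C hC => hle _ (h.small C hC))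
  have hq : 8 * (t * m) ≤ n := by
    calc 8 * (t * m) = 8 * t * m := by ring
      _ ≤ n := hmle
  have hm8 : 8 * m ≤ n := by
    have : 8 * m ≤ 8 * (t * m) := by
      apply Nat.mul_le_mul_left
      exact Nat.le_mul_of_pos_left m (by omega)
    omega
  have hcBX : cost G (nb G B) + cost G X ≤ t * m := by
    have h1 : cost G X ≤ m := hle _ hXc
    have h2 : (F.card + 1) * m ≤ t * m := Nat.mul_le_mul_right m ht
    have h3 : (F.card + 1) * m = F.card * m + m := by ring
    omega
  have hBcut := hcut B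
  have hXcard : X.card ≤ m := (card_le_cost X).trans (hle _ hXc)
  have hW : (B \ X).card = B.card - X.card := card_sdiff_of_subset hX
  have hXB : X.card ≤ B.card := card_le_card hX
  apply giant
  · rw [hW, ← hn]
    rcases min_cases B.card (n - B.card) with ⟨h1, h2⟩ | ⟨h1, h2⟩
    · rw [h1] at hBcut
      omega
    · rw [h1] at hBcut
      omega
  · intro A hA hA2
    have h1 := hcut A
    have h2 : cost G (nb G A) ≤ cost G (nb G B) + cost G X := by
      calc cost G (nb G A) ≤ cost G (nb G B ∪ (X ∩ B)) := cost_mono (nb_closed_subset hA)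
        _ ≤ cost G (nb G B) + cost G (X ∩ B) := cost_union _ _
        _ ≤ cost G (nb G B) + cost G X := Nat.add_le_add_left (cost_mono inter_subset_left) _
    have h3 : A.card ≤ t * m := by
      rw [min_eq_left (by omega)] at h1
      omega
    omega

lemma nb_inter_subset {B B' C : Finset V} (hB : B' ⊆ B) (hC : Disjoint C B) :
    nb G B' ∩ C ⊆ nb G B ∩ C := by
  intro x hx
  rw [mem_inter] at hx ⊢
  obtain ⟨_, b, hb, hbx⟩ := mem_nb.1 hx.1
  exact ⟨mem_nb.2 ⟨Finset.disjoint_left.1 hC hx.2, b, hB hb, hbx⟩, hx.2⟩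

/-- minimal closed superset -/
lemma exists_min_closed (R P : Finset V) (hP : P ⊆ R) :
    ∃ D, Closed G R D ∧ P ⊆ D ∧ ∀ D', Closed G R D' → P ⊆ D' → D' ⊆ D → D' = D := by
  classical
  let K := R.powerset.filter (fun D => Closed G R D ∧ P ⊆ D)
  have hK : K.Nonempty := ⟨R, by simp [K, Closed.refl, hP]⟩
  obtain ⟨D, hD, hmin⟩ := K.exists_min_image card hK
  simp only [K, mem_filter, mem_powerset] at hD hmin
  refine ⟨D, hD.2.1, hD.2.2, ?_⟩
  intro D' h1 h2 h3
  exact Finset.eq_of_subset_of_card_le h3 (hmin D' ⟨h1.1, h1, h2⟩)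

lemma descent {t : ℕ} {L Dm : ℕ} (hL : 1 ≤ L)
    (hcut : ∀ A : Finset V, min A.card (Fintype.card V - A.card) ≤ cost G (nb G A))
    (hnm : ¬ KM G t univ) (hDm : ∀ v, dg G v + 1 ≤ Dm)
    (hT : 8 * t * ((L + 1) * Dm) ≤ Fintype.card V)
    (hLL : 8 * t * (t * cost G univ) ≤ L * Fintype.card V)
    {B : Finset V} {F : Finset (Finset V)} (h : St G t B F) :
    ∃ B' F', St G t B' F' ∧ B'.card < B.card := by
  classical
  have hFt : F.card < t := card_lt_of_noMinor hnm h.conn h.disj h.adj
  let φ : Finset V → Finset V := fun C => B.filter (fun b => ∃ x ∈ C, G.Adj x b)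
  rcases tree_or_sep' (G := G) B h.connB.1 F φ L hL with hcase | hcase
  · obtain ⟨T, hTB, hTc, hTcard, hTφ⟩ := hcase
    have hcT : 8 * t * cost G T ≤ Fintype.card V := by
      have h1 : cost G T ≤ (L + 1) * Dm :=
        (cost_le_card_mul T Dm hDm).trans (Nat.mul_le_mul_right _ hTcard)
      exact (Nat.mul_le_mul_left _ h1).trans hT
    obtain ⟨B1, hB1c, hB1big, hB1conn⟩ := giant_step hFt hcut h.toPSt hTB hcT
    have hB1B : B1 ⊆ B := hB1c.1.trans sdiff_subset
    have hTB1 : Disjoint T B1 := by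
      rw [Finset.disjoint_left]
      intro x hx hx'
      exact (mem_sdiff.1 (hB1c.1 hx')).2 hx
    have hps : PSt G t B1 (insert T F) := by
      refine ⟨hB1conn, hB1big, ?_, ?_, ?_, ?_, ?_, ?_⟩
      · intro C hC
        rcases mem_insert.1 hC with rfl | hC
        · exact hTc
        · exact h.conn C hC
      · intro C hC
        rcases mem_insert.1 hC with rfl | hC
        · exact hTB1
        · exact (h.disjB C hC).mono_right hB1B
      · intro C hC C' hC' hne
        rcases mem_insert.1 hC with hC1 | hC1 <;> rcases mem_insert.1 hC' with hC2 | hC2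
        · exact absurd (hC1.trans hC2.symm) hne
        · rw [hC1]; exact ((h.disjB C' hC2).mono_right hTB).symm
        · rw [hC2]; exact (h.disjB C hC1).mono_right hTB
        · exact h.disj C hC1 C' hC2 hne
      · have key : ∀ C ∈ F, ∃ x ∈ C, ∃ y ∈ T, G.Adj x y := by
          intro C hC
          obtain ⟨y, hy⟩ := hTφ C hC
          simp only [φ, mem_inter, mem_filter] at hy
          obtain ⟨hyT, _, x, hx, hxy⟩ := hy
          exact ⟨x, hx, y, hyT, hxy⟩
        intro C hC C' hC' hne
        rcases mem_insert.1 hC with hC1 | hC1 <;> rcases mem_insert.1 hC' with hC2 | hC2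
        · exact absurd (hC1.trans hC2.symm) hne
        · obtain ⟨x, hx, y, hy, hxy⟩ := key C' hC2
          rw [hC1]
          exact ⟨y, hy, x, hx, hxy.symm⟩
        · rw [hC2]; exact key C hC1
        · exact h.adj C hC1 C' hC2 hne
      · intro x hx
        have := nb_closed_subset hB1c hx
        rw [mem_union, mem_inter] at this
        rcases this with h1 | h1
        · obtain ⟨C, hC, hxC⟩ := h.cover x h1
          exact ⟨C, mem_insert_of_mem hC, hxC⟩
        · exact ⟨T, mem_insert_self _ _, h1.1⟩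
      · intro C hC
        rcases mem_insert.1 hC with rfl | hC
        · exact (Nat.mul_le_mul_left _ (cost_mono inter_subset_right)).trans hcT
        · exact (Nat.mul_le_mul_left _ (cost_mono (nb_inter_subset hB1B (h.disjB C hC)))).trans
            (h.small C hC)
    obtain ⟨F', hF'⟩ := hps.clean
    refine ⟨B1, F', hF', ?_⟩
    apply card_lt_card
    rw [Finset.ssubset_iff_of_subset hB1B]
    obtain ⟨x, hx⟩ := hTc.1
    exact ⟨x, hTB hx, Finset.disjoint_left.1 hTB1 hx⟩
  · obtain ⟨Z, hZB, hZcost, hZsep⟩ := hcase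
    have hcZ : 8 * t * cost G Z ≤ Fintype.card V := by
      have h1 : L * cost G Z ≤ t * cost G univ :=
        hZcost.trans (Nat.mul_le_mul_right _ hFt)
      have h2 : L * (8 * t * cost G Z) ≤ L * Fintype.card V := by
        calc L * (8 * t * cost G Z) = 8 * t * (L * cost G Z) := by ring
          _ ≤ 8 * t * (t * cost G univ) := Nat.mul_le_mul_left _ h1
          _ ≤ _ := hLL
      exact Nat.le_of_mul_le_mul_left h2 (by omega)
    obtain ⟨B1, hB1c, hB1big, hB1conn⟩ := giant_step hFt hcut h.toPSt hZB hcZ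
    obtain ⟨C0, hC0, hB1φ⟩ := hZsep B1 hB1c.1 hB1conn
    rw [not_nonempty_iff_eq_empty] at hB1φ
    have hB1B : B1 ⊆ B := hB1c.1.trans sdiff_subset
    have hφR : φ C0 ⊆ B \ B1 := by
      intro x hx
      rw [mem_sdiff]
      refine ⟨(mem_filter.1 hx).1, fun hxB1 => ?_⟩
      have : x ∈ B1 ∩ φ C0 := mem_inter.2 ⟨hxB1, hx⟩
      rw [hB1φ] at this
      simp at this
    obtain ⟨D, hDc, hφD, hDmin⟩ := exists_min_closed (G := G) (B \ B1) (φ C0) hφR
    have hDB : D ⊆ B := hDc.1.trans sdiff_subset
    have hDB1 : Disjoint D B1 := by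
      rw [Finset.disjoint_left]
      intro x hx hx'
      exact (mem_sdiff.1 (hDc.1 hx)).2 hx'
    have hB1B2 : B1 ⊆ B \ D := by
      intro x hx
      rw [mem_sdiff]
      exact ⟨hB1B hx, Finset.disjoint_right.1 hDB1 hx⟩
    have hC0B : Disjoint C0 B := h.disjB C0 hC0
    have hDne : D.Nonempty := by
      obtain ⟨x, hx, y, hy, hxy⟩ := h.adjB C0 hC0
      exact ⟨y, hφD (mem_filter.2 ⟨hy, x, hx, hxy⟩)⟩
    -- no edges between D and (B \ D) \ B1
    have hDedge : ∀ x ∈ D, ∀ y ∈ B \ D, G.Adj x y → y ∈ B1 := by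
      intro x hx y hy hxy
      by_contra hyB1
      rw [mem_sdiff] at hy
      exact hy.2 (hDc.2 x hx y (mem_sdiff.2 ⟨hy.1, hyB1⟩) hxy)
    have hB2conn : Conn G (B \ D) := by
      have aux : ∀ S, Closed G (B \ D) S → Disjoint S B1 → S = ∅ := by
        intro S hS hSB1
        by_contra hne
        have hne' : S.Nonempty := nonempty_iff_ne_empty.2 hne
        have hSB : Closed G B S := by
          refine ⟨hS.1.trans sdiff_subset, ?_⟩
          intro x hx y hy hxy
          by_cases hyD : y ∈ D
          · exact absurd (hDedge y hyD x (hS.1 hx) hxy.symm) (Finset.disjoint_left.1 hSB1 hx)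
          · exact hS.2 x hx y (mem_sdiff.2 ⟨hy, hyD⟩) hxy
        have := h.connB.2 S hSB hne'
        obtain ⟨b, hb⟩ := hB1conn.1
        exact Finset.disjoint_right.1 hSB1 hb (by rw [this]; exact hB1B hb)
      refine ⟨hB1conn.1.mono hB1B2, ?_⟩
      intro S hS hne
      have h1 := hB1conn.2 (S ∩ B1) (hS.inter hB1B2)
      by_cases hSB : (S ∩ B1).Nonempty
      · have h2 := h1 hSB
        have h3 : B1 ⊆ S := by rw [← h2]; exact inter_subset_left
        have h4 := aux ((B \ D) \ S) hS.sdiff (by
          rw [Finset.disjoint_left]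
          intro x hx hx'
          exact (mem_sdiff.1 hx).2 (h3 hx'))
        rw [sdiff_eq_empty_iff_subset] at h4
        exact Subset.antisymm hS.1 h4
      · rw [not_nonempty_iff_eq_empty, ← Finset.disjoint_iff_inter_eq_empty] at hSB
        have := aux S hS hSB
        rw [this] at hne
        simp at hne
    have hCDconn : Conn G (C0 ∪ D) := by
      refine ⟨(h.conn C0 hC0).1.mono subset_union_left, ?_⟩
      intro S hS hne
      have hSC : Closed G C0 (S ∩ C0) := hS.inter subset_union_left
      have hSD : Closed G D (S ∩ D) := hS.inter subset_union_right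
      by_cases hc : (S ∩ C0).Nonempty
      · have h2 := (h.conn C0 hC0).2 _ hSC hc
        have h3 : C0 ⊆ S := by rw [← h2]; exact inter_subset_left
        have h4 : φ C0 ⊆ S ∩ D := by
          intro y hy
          obtain ⟨hyB, x, hx, hxy⟩ := mem_filter.1 hy
          exact mem_inter.2 ⟨hS.2 x (h3 hx) y (mem_union_right _ (hφD hy)) hxy, hφD hy⟩
        have h5 := hDmin (S ∩ D) (hDc.trans hSD) h4 inter_subset_right
        apply Subset.antisymm hS.1
        apply union_subset h3
        rw [← h5]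
        exact inter_subset_left
      · exfalso
        rw [not_nonempty_iff_eq_empty, ← Finset.disjoint_iff_inter_eq_empty] at hc
        have hSD' : S ⊆ D := by
          intro x hx
          rcases mem_union.1 (hS.1 hx) with h1 | h1
          · exact absurd h1 (Finset.disjoint_left.1 hc hx)
          · exact h1
        have hSD2 : S ∩ D = S := inter_eq_left.2 hSD'
        rw [hSD2] at hSD
        have h5 : φ C0 ⊆ D \ S := by
          intro y hy
          rw [mem_sdiff]
          refine ⟨hφD hy, fun hyS => ?_⟩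
          obtain ⟨hyB, x, hx, hxy⟩ := mem_filter.1 hy
          exact Finset.disjoint_right.1 hc hx (hS.2 y hyS x (mem_union_left _ hx) hxy.symm)
        have h6 := hDmin (D \ S) (hDc.trans hSD.sdiff) h5 sdiff_subset
        obtain ⟨x, hx⟩ := hne
        have : x ∈ D \ S := by rw [h6]; exact hSD' hx
        exact (mem_sdiff.1 this).2 hx
    have hps : PSt G t (B \ D) (insert (C0 ∪ D) (F.erase C0)) := by
      refine ⟨hB2conn, ?_, ?_, ?_, ?_, ?_, ?_, ?_⟩
      · have := card_le_card hB1B2
        omega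
      · intro C hC
        rcases mem_insert.1 hC with rfl | hC
        · exact hCDconn
        · exact h.conn C (mem_erase.1 hC).2
      · intro C hC
        rcases mem_insert.1 hC with rfl | hC
        · rw [Finset.disjoint_left]
          intro x hx hx'
          rw [mem_sdiff] at hx'
          rcases mem_union.1 hx with h1 | h1
          · exact Finset.disjoint_left.1 hC0B h1 hx'.1
          · exact hx'.2 h1
        · exact (h.disjB C (mem_erase.1 hC).2).mono_right sdiff_subset
      · have key : ∀ C ∈ F.erase C0, Disjoint (C0 ∪ D) C := by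
          intro C hC
          rw [mem_erase] at hC
          rw [Finset.disjoint_union_left]
          exact ⟨h.disj C0 hC0 C hC.2 hC.1.symm, ((h.disjB C hC.2).mono_right hDB).symm⟩
        intro C hC C' hC' hne
        rcases mem_insert.1 hC with hC1 | hC1 <;> rcases mem_insert.1 hC' with hC2 | hC2
        · exact absurd (hC1.trans hC2.symm) hne
        · rw [hC1]; exact key C' hC2
        · rw [hC2]; exact (key C hC1).symm
        · exact h.disj C (mem_erase.1 hC1).2 C' (mem_erase.1 hC2).2 hne
      · have key : ∀ C ∈ F.erase C0, ∃ x ∈ C0 ∪ D, ∃ y ∈ C, G.Adj x y := by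
          intro C hC
          rw [mem_erase] at hC
          obtain ⟨x, hx, y, hy, hxy⟩ := h.adj C0 hC0 C hC.2 hC.1.symm
          exact ⟨x, mem_union_left _ hx, y, hy, hxy⟩
        intro C hC C' hC' hne
        rcases mem_insert.1 hC with hC1 | hC1 <;> rcases mem_insert.1 hC' with hC2 | hC2
        · exact absurd (hC1.trans hC2.symm) hne
        · rw [hC1]; exact key C' hC2
        · obtain ⟨x, hx, y, hy, hxy⟩ := key C hC1
          rw [hC2]
          exact ⟨y, hy, x, hx, hxy.symm⟩
        · exact h.adj C (mem_erase.1 hC1).2 C' (mem_erase.1 hC2).2 hne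
      · intro x hx
        obtain ⟨hxB2, b, hb, hbx⟩ := mem_nb.1 hx
        by_cases hxD : x ∈ D
        · exact ⟨C0 ∪ D, mem_insert_self _ _, mem_union_right _ hxD⟩
        · have hxB : x ∉ B := fun hxB => hxB2 (mem_sdiff.2 ⟨hxB, hxD⟩)
          obtain ⟨C, hC, hxC⟩ := h.cover x (mem_nb.2 ⟨hxB, b, (mem_sdiff.1 hb).1, hbx⟩)
          by_cases hCC : C = C0
          · subst hCC
            exact ⟨C ∪ D, mem_insert_self _ _, mem_union_left _ hxC⟩
          · exact ⟨C, mem_insert_of_mem (mem_erase.2 ⟨hCC, hC⟩), hxC⟩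
      · intro C hC
        rcases mem_insert.1 hC with rfl | hC
        · refine (Nat.mul_le_mul_left _ (cost_mono ?_)).trans hcZ
          intro x hx
          rw [mem_inter, mem_union] at hx
          obtain ⟨hxB2, b, hb, hbx⟩ := mem_nb.1 hx.1
          rcases hx.2 with h1 | h1
          · exfalso
            have : b ∈ φ C0 := mem_filter.2 ⟨(mem_sdiff.1 hb).1, x, h1, hbx.symm⟩
            exact (mem_sdiff.1 hb).2 (hφD this)
          · have hbB1 : b ∈ B1 := hDedge x h1 b hb hbx.symm
            by_contra hxZ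
            have : x ∈ B1 := hB1c.2 b hbB1 x (mem_sdiff.2 ⟨hDB h1, hxZ⟩) hbx
            exact Finset.disjoint_left.1 hDB1 h1 this
        · have hC' := (mem_erase.1 hC).2
          exact (Nat.mul_le_mul_left _ (cost_mono (nb_inter_subset sdiff_subset
            (h.disjB C hC')))).trans (h.small C hC')
    obtain ⟨F', hF'⟩ := hps.clean
    refine ⟨B \ D, F', hF', ?_⟩
    rw [card_sdiff_of_subset hDB]
    have h1 := card_pos.2 hDne
    have h2 := card_le_card hDB
    omega

/-- No graph with the cut condition, few edges, small degrees and no `K_t` minor. -/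
lemma no_state {t : ℕ} {L Dm : ℕ} (hL : 1 ≤ L)
    (hcut : ∀ A : Finset V, min A.card (Fintype.card V - A.card) ≤ cost G (nb G A))
    (hnm : ¬ KM G t univ) (hDm : ∀ v, dg G v + 1 ≤ Dm)
    (hT : 8 * t * ((L + 1) * Dm) ≤ Fintype.card V)
    (hLL : 8 * t * (t * cost G univ) ≤ L * Fintype.card V) :
    ∀ (N : ℕ) (B : Finset V) (F : Finset (Finset V)), B.card ≤ N → St G t B F → False := by
  intro N
  induction N with
  | zero =>
    intro B F hB h
    have := card_pos.2 h.connB.1
    omega
  | succ N ih =>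
    intro B F hB h
    obtain ⟨B', F', h', hlt⟩ := descent hL hcut hnm hDm hT hLL h
    exact ih B' F' (by omega) h'

end Pool.Agent.H331R3
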