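import Pool.Agent.H331R3.PPBasic

set_option autoImplicit false
set_option linter.unusedSectionVars false

namespace Pool.Agent.H331R3

open Finset

variable {V : Type} [Fintype V] [DecidableEq V] {G : SimpleGraph V}

/-- `M s j v`: a small connected set through `v` meets the first `j` targets. -/
def MM (G : SimpleGraph V) (B : Finset V) (A : ℕ → Finset V) (s j : ℕ) (v : V) : Prop :=
  ∃ T ⊆ B, Conn G T ∧ v ∈ T ∧ T.card ≤ s + 1 ∧ ∀ i < j, (T ∩ A i).Nonempty

lemma MM.mono {B : Finset V} {A : ℕ → Finset V} {s s' j : ℕ} {v : V} (h : MM G B A s j v)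
    (hs : s ≤ s') : MM G B A s' j v := by
  obtain ⟨T, h1, h2, h3, h4, h5⟩ := h
  exact ⟨T, h1, h2, h3, by omega, h5⟩

lemma MM.step {B : Finset V} {A : ℕ → Finset V} {s j : ℕ} {u v : V} (h : MM G B A s j u)
    (huv : G.Adj u v) (hv : v ∈ B) : MM G B A (s + 1) j v := by
  obtain ⟨T, h1, h2, h3, h4, h5⟩ := h
  refine ⟨insert v T, insert_subset hv h1, h2.insert h3 huv, mem_insert_self _ _, ?_, ?_⟩
  · have := card_insert_le v T
    omega
  · intro i hi
    obtain ⟨x, hx⟩ := h5 i hi
    rw [mem_inter] at hx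
    exact ⟨x, mem_inter.2 ⟨mem_insert_of_mem hx.1, hx.2⟩⟩

lemma MM.up {B : Finset V} {A : ℕ → Finset V} {s j : ℕ} {u : V} (h : MM G B A s j u)
    (hu : u ∈ A j) : MM G B A s (j + 1) u := by
  obtain ⟨T, h1, h2, h3, h4, h5⟩ := h
  refine ⟨T, h1, h2, h3, h4, ?_⟩
  intro i hi
  rcases Nat.lt_succ_iff_lt_or_eq.1 hi with h | h
  · exact h5 i h
  · subst h
    exact ⟨u, mem_inter.2 ⟨h3, hu⟩⟩

lemma MM.zero {B : Finset V} {A : ℕ → Finset V} {s : ℕ} {u : V} (hu : u ∈ B) :
    MM G B A s 0 u := by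
  refine ⟨{u}, singleton_subset_iff.2 hu, conn_singleton u, mem_singleton_self u, by simp, ?_⟩
  intro i hi
  omega

/-- Layering lemma (Alon-Seymour-Thomas) with costs. -/
lemma tree_or_sep (B : Finset V) (hB : B.Nonempty) (k : ℕ) (A : ℕ → Finset V) (L : ℕ)
    (hL : 1 ≤ L) :
    (∃ T ⊆ B, Conn G T ∧ T.card ≤ L + 1 ∧ ∀ i < k, (T ∩ A i).Nonempty) ∨
    (∃ Z ⊆ B, L * cost G Z ≤ (k + 1) * cost G univ ∧
      ∀ Y ⊆ B \ Z, Conn G Y → ∃ i < k, ¬ (Y ∩ A i).Nonempty) := by
  classical
  by_cases hc : ∃ v ∈ B, MM G B A L k v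
  · left
    obtain ⟨v, _, T, h1, h2, _, h4, h5⟩ := hc
    exact ⟨T, h1, h2, h4, h5⟩
  right
  push Not at hc
  let Z : ℕ → Finset V := fun l =>
    B.filter (fun v => ∃ j ∈ range (k + 1), MM G B A (l + 1) j v ∧ ¬ MM G B A l j v)
  have hmult : ∀ v, ((range L).filter (fun l => v ∈ Z l)).card ≤ k + 1 := by
    intro v
    have hch : ∀ l ∈ (range L).filter (fun l => v ∈ Z l), ∃ j ∈ range (k + 1),
        MM G B A (l + 1) j v ∧ ¬ MM G B A l j v := by
      intro l hl
      simp only [mem_filter, Z] at hl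
      exact hl.2.2
    choose! jf hj1 hj2 using hch
    have : ((range L).filter (fun l => v ∈ Z l)).card ≤ (range (k + 1)).card := by
      apply Finset.card_le_card_of_injOn jf
      · intro l hl
        exact hj1 l hl
      · intro l hl l' hl' hll
        have a := hj2 l hl
        have b := hj2 l' hl'
        by_contra hne
        rcases Nat.lt_or_gt_of_ne hne with h | h
        · rw [← hll] at b
          exact b.2 (a.1.mono (by omega))
        · rw [hll] at a
          exact a.2 (b.1.mono (by omega))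
    rwa [card_range] at this
  have hsum : ∑ l ∈ range L, cost G (Z l) ≤ (k + 1) * cost G univ := by
    have h1 : ∀ l ∈ range L, cost G (Z l) = ∑ v : V, if v ∈ Z l then (dg G v + 1) else 0 := by
      intro l _
      rw [cost, ← Finset.sum_filter]
      congr 1
      ext v
      simp
    rw [Finset.sum_congr rfl h1, Finset.sum_comm, cost, Finset.mul_sum]
    apply Finset.sum_le_sum
    intro v _
    rw [← Finset.sum_filter, Finset.sum_const, smul_eq_mul]
    exact Nat.mul_le_mul_right _ (hmult v)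
  obtain ⟨l, hl, hle⟩ : ∃ l ∈ range L, L * cost G (Z l) ≤ (k + 1) * cost G univ := by
    by_contra hcon
    push Not at hcon
    have h1 : ∑ l ∈ range L, (k + 1) * cost G univ < ∑ l ∈ range L, L * cost G (Z l) := by
      apply Finset.sum_lt_sum_of_nonempty
      · exact ⟨0, mem_range.2 (by omega)⟩
      · intro l hl
        exact hcon l hl
    rw [Finset.sum_const, card_range, smul_eq_mul, ← Finset.mul_sum] at h1
    have := Nat.lt_of_mul_lt_mul_left h1
    omega
  refine ⟨Z l, filter_subset _ _, hle, ?_⟩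
  intro Y hY hYc
  by_contra hcon
  push Not at hcon
  rw [mem_range] at hl
  have key : ∀ j, j ≤ k → ∀ y ∈ Y, MM G B A l j y := by
    intro j
    induction j with
    | zero =>
      intro _ y hy
      exact MM.zero ((mem_sdiff.1 (hY hy)).1)
    | succ j ih =>
      intro hj
      obtain ⟨a, ha⟩ := hcon j (by omega)
      rw [mem_inter] at ha
      have h0 : MM G B A l (j + 1) a := (ih (by omega) a ha.1).up ha.2
      apply hYc.prop (fun y => MM G B A l (j + 1) y) ha.1 h0
      intro x hx hPx y hy hxy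
      have hyB := mem_sdiff.1 (hY hy)
      by_contra hno
      apply hyB.2
      simp only [Z, mem_filter]
      exact ⟨hyB.1, j + 1, mem_range.2 (by omega), hPx.step hxy hyB.1, hno⟩
  obtain ⟨y, hy⟩ := hYc.1
  exact hc y (mem_sdiff.1 (hY hy)).1 ((key k le_rfl y hy).mono (by omega))

/-- The layering lemma with targets indexed by a finite set. -/
lemma tree_or_sep' (B : Finset V) (hB : B.Nonempty) (F : Finset (Finset V))
    (φ : Finset V → Finset V) (L : ℕ) (hL : 1 ≤ L) :
    (∃ T ⊆ B, Conn G T ∧ T.card ≤ L + 1 ∧ ∀ C ∈ F, (T ∩ φ C).Nonempty) ∨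
    (∃ Z ⊆ B, L * cost G Z ≤ (F.card + 1) * cost G univ ∧
      ∀ Y ⊆ B \ Z, Conn G Y → ∃ C ∈ F, ¬ (Y ∩ φ C).Nonempty) := by
  classical
  rcases tree_or_sep (G := G) B hB F.card (fun i => φ (F.toList.getD i ∅)) L hL with h | h
  · left
    obtain ⟨T, h1, h2, h3, h4⟩ := h
    refine ⟨T, h1, h2, h3, ?_⟩
    intro C hC
    rw [← Finset.mem_toList, List.mem_iff_getElem] at hC
    obtain ⟨i, hi, rfl⟩ := hC
    have := h4 i (by simpa using hi)
    rwa [List.getD_eq_getElem _ _ hi] at this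
  · right
    obtain ⟨Z, h1, h2, h3⟩ := h
    refine ⟨Z, h1, h2, ?_⟩
    intro Y hY hYc
    obtain ⟨i, hi, h⟩ := h3 Y hY hYc
    have hi' : i < F.toList.length := by simpa using hi
    rw [List.getD_eq_getElem _ _ hi'] at h
    exact ⟨_, by rw [← Finset.mem_toList]; exact List.getElem_mem hi', h⟩

end Pool.Agent.H331R3
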